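import Mathlib

/-!
Isoptics of sets in the plane: definitions.
-/

set_option autoImplicit false

open Real Set Metric
open scoped RealInnerProductSpace

namespace Pool.Agent.Helper65.Iso

/-- The Euclidean plane. -/
abbrev Plane := EuclideanSpace ℝ (Fin 2)

/-- The angle of sight of `S` at `P`: the supremum of the angles `x P y` with `x, y ∈ S`, i.e. the
opening angle of the cone with apex `P` formed by the rays from `P` through the points of `S`. -/
noncomputable def sight (S : Set Plane) (P : Plane) : ℝ :=
  sSup {t : ℝ | ∃ x ∈ S, ∃ y ∈ S, t = EuclideanGeometry.angle x P y}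

/-- The isoptic of `S` at the angle `α`: the points `P` outside `S` at which the angle of sight of
`S` is `α`. -/
def isoptic (S : Set Plane) (α : ℝ) : Set Plane := {P | P ∉ S ∧ sight S P = α}

/-- `C` is a circle (of positive radius). -/
def IsCircle (C : Set Plane) : Prop := ∃ (c : Plane) (r : ℝ), 0 < r ∧ C = Metric.sphere c r

end Pool.Agent.Helper65.Iso
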