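import Pool.Agent.Helper65.IsoDefs

/-!
Circular isoptics of compact convex sets in the plane: the proof.

Let `h` be the support function of `S`. For a circular isoptic at the angle `α = π - β` with centre
`c` and radius `r`, the intersection point of the support lines in the directions `t` and `t + β` is
on the circle. So the function `arccos (g / r)`, where `g = h - ⟨c, ·⟩`, is reflected in `β / 2` by
the shift by `β` (`arc_rel`). Hence `g` has the period `2 β`, which determines the centre; and for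
two such circles, with the same centre, the shift by `β₁ - β₂` preserves the order of the values of
`g`, so `g` is invariant under this shift (recurrence), which gives two different quadratic
equations for the pairs `g t, g (t + β₁)`; so `g` is constant.
-/

set_option autoImplicit false

open Real Set Metric
open scoped RealInnerProductSpace

namespace Pool.Agent.Helper65.Iso

/-- The linear functional `x ↦ ⟨x, (cos θ, sin θ)⟩`. -/
noncomputable def ell (θ : ℝ) (x : Plane) : ℝ := x 0 * cos θ + x 1 * sin θ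

/-- The support function. -/
noncomputable def supp (S : Set Plane) (θ : ℝ) : ℝ := sSup (ell θ '' S)

lemma ell_cont : Continuous (fun p : ℝ × Plane => ell p.1 p.2) := by
  unfold ell
  fun_prop

lemma supp_cont {S : Set Plane} (hS : IsCompact S) : Continuous (supp S) :=
  hS.continuous_sSup (f := ell) ell_cont

lemma le_supp {S : Set Plane} (hS : IsCompact S) (θ : ℝ) {x : Plane} (hx : x ∈ S) :
    ell θ x ≤ supp S θ := by
  refine le_csSup ?_ ⟨x, hx, rfl⟩
  exact (hS.image (ell_cont.comp (by fun_prop : Continuous fun x : Plane => (θ, x)))).bddAbove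

lemma exists_supp {S : Set Plane} (hS : IsCompact S) (hne : S.Nonempty) (θ : ℝ) :
    ∃ x ∈ S, ell θ x = supp S θ := by
  have hc : IsCompact (ell θ '' S) :=
    hS.image (ell_cont.comp (by fun_prop : Continuous fun x : Plane => (θ, x)))
  obtain ⟨x, hx, hx2⟩ := hc.sSup_mem (hne.image _)
  exact ⟨x, hx, hx2⟩

/-- The intersection point of the support lines in the directions `θ` and `θ + β`. -/
noncomputable def pt (h : ℝ → ℝ) (β θ : ℝ) : Plane :=
  !₂[h θ * cos θ - (h (θ + β) - h θ * cos β) / sin β * sin θ,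
     h θ * sin θ + (h (θ + β) - h θ * cos β) / sin β * cos θ]

lemma pt_cont {h : ℝ → ℝ} (hh : Continuous h) (β : ℝ) : Continuous (pt h β) := by
  unfold pt
  refine (PiLp.continuous_toLp 2 _).comp ?_
  refine continuous_pi fun i => ?_
  fin_cases i <;> simp <;> fun_prop

@[simp] lemma pt_zero (h : ℝ → ℝ) (β θ : ℝ) :
    pt h β θ 0 = h θ * cos θ - (h (θ + β) - h θ * cos β) / sin β * sin θ := rfl

@[simp] lemma pt_one (h : ℝ → ℝ) (β θ : ℝ) :
    pt h β θ 1 = h θ * sin θ + (h (θ + β) - h θ * cos β) / sin β * cos θ := rfl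

lemma ell_pt (h : ℝ → ℝ) (β θ : ℝ) : ell θ (pt h β θ) = h θ := by
  simp only [ell, pt_zero, pt_one]
  linear_combination (h θ) * (sin_sq_add_cos_sq θ)

lemma ell_pt' (h : ℝ → ℝ) {β : ℝ} (hβ : sin β ≠ 0) (θ : ℝ) :
    ell (θ + β) (pt h β θ) = h (θ + β) := by
  simp only [ell, pt_zero, pt_one, cos_add, sin_add]
  field_simp
  linear_combination (sin β * h (θ + β)) * (sin_sq_add_cos_sq θ)

lemma ext2 {x y : Plane} (h0 : x 0 = y 0) (h1 : x 1 = y 1) : x = y := by
  ext i
  fin_cases i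
  · exact h0
  · exact h1

/-- Two points with the same values at two directions which are not parallel are equal. -/
lemma eq_of_ell {θ β : ℝ} (hβ : sin β ≠ 0) {x y : Plane} (h0 : ell θ x = ell θ y)
    (h1 : ell (θ + β) x = ell (θ + β) y) : x = y := by
  simp only [ell, cos_add, sin_add] at h0 h1
  have e1 : (x 0 - y 0) * sin β = 0 := by
    linear_combination (sin θ * cos β + cos θ * sin β) * h0 - sin θ * h1
      - (x 0 - y 0) * sin β * (sin_sq_add_cos_sq θ)
  have e2 : (x 1 - y 1) * sin β = 0 := by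
    linear_combination (- cos θ * cos β + sin θ * sin β) * h0 + cos θ * h1
      - (x 1 - y 1) * sin β * (sin_sq_add_cos_sq θ)
  refine ext2 ?_ ?_
  · exact sub_eq_zero.mp ((mul_eq_zero.mp e1).resolve_right hβ)
  · exact sub_eq_zero.mp ((mul_eq_zero.mp e2).resolve_right hβ)

lemma eq_pt {h : ℝ → ℝ} {β : ℝ} (hβ : sin β ≠ 0) {θ : ℝ} {x : Plane} (h0 : ell θ x = h θ)
    (h1 : ell (θ + β) x = h (θ + β)) : x = pt h β θ :=
  eq_of_ell hβ (h0.trans (ell_pt h β θ).symm) (h1.trans (ell_pt' h hβ θ).symm)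

lemma ell_sub (θ : ℝ) (x y : Plane) : ell θ (x - y) = ell θ x - ell θ y := by
  simp only [ell, PiLp.sub_apply]
  ring

/-- `ell t` for `t` between `θ` and `θ + β` as a combination. -/
lemma ell_comb (θ β t : ℝ) (x : Plane) :
    sin β * ell t x = sin (θ + β - t) * ell θ x + sin (t - θ) * ell (θ + β) x := by
  simp only [ell]
  have e1 : sin (θ + β - t) = sin θ * cos β * cos t + cos θ * sin β * cos t
      - (cos θ * cos β * sin t - sin θ * sin β * sin t) := by
    rw [sin_sub, sin_add, cos_add]; ring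
  have e2 : sin (t - θ) = sin t * cos θ - cos t * sin θ := by rw [sin_sub]
  rw [e1, e2, cos_add, sin_add]
  linear_combination (-(sin β * (x 0 * cos t + x 1 * sin t))) * (sin_sq_add_cos_sq θ)

/-- If `v ∈ S` is on the support lines in the directions `θ` and `θ + b`, `0 < b < π`, then it is on
the support lines for all directions between them. -/
lemma supp_between {S : Set Plane} (hS : IsCompact S) {v : Plane} (hv : v ∈ S) {θ b : ℝ}
    (hb0 : 0 < b) (hb : b < π) (h0 : ell θ v = supp S θ) (h1 : ell (θ + b) v = supp S (θ + b))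
    {t : ℝ} (ht : t ∈ Icc θ (θ + b)) : ell t v = supp S t := by
  obtain ⟨w, hw, hw2⟩ := exists_supp hS ⟨v, hv⟩ t
  refine le_antisymm (le_supp hS t hv) ?_
  rw [← hw2]
  have hs : 0 < sin b := sin_pos_of_pos_of_lt_pi hb0 hb
  have e1 := ell_comb θ b t v
  have e2 := ell_comb θ b t w
  have s1 : 0 ≤ sin (θ + b - t) := sin_nonneg_of_nonneg_of_le_pi (by linarith [ht.2])
    (by linarith [ht.1])
  have s2 : 0 ≤ sin (t - θ) := sin_nonneg_of_nonneg_of_le_pi (by linarith [ht.1])
    (by linarith [ht.2])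
  have i1 : ell θ w ≤ ell θ v := h0 ▸ le_supp hS θ hw
  have i2 : ell (θ + b) w ≤ ell (θ + b) v := h1 ▸ le_supp hS (θ + b) hw
  have : sin b * ell t w ≤ sin b * ell t v := by
    rw [e1, e2]
    gcongr
  exact le_of_mul_le_mul_left this hs

lemma inner_eq (x y : Plane) : inner ℝ x y = x 0 * y 0 + x 1 * y 1 := by
  simp [PiLp.inner_apply, Fin.sum_univ_two, mul_comm]

lemma norm_sq_eq (x : Plane) : ‖x‖ ^ 2 = x 0 ^ 2 + x 1 ^ 2 := by
  rw [← real_inner_self_eq_norm_sq, inner_eq]; ring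

/-- Polar coordinates with the angle in a prescribed interval. -/
lemma polar (θ : ℝ) (w : Plane) :
    ∃ φ ∈ Ico θ (θ + 2 * π), w 0 = ‖w‖ * cos φ ∧ w 1 = ‖w‖ * sin φ := by
  set z : ℂ := ⟨w 0, w 1⟩ with hz
  have hn : ‖z‖ = ‖w‖ := by
    have h1 : ‖z‖ ^ 2 = ‖w‖ ^ 2 := by
      rw [norm_sq_eq, Complex.sq_norm, Complex.normSq_apply]; ring
    exact (sq_eq_sq₀ (norm_nonneg _) (norm_nonneg _)).mp h1
  have h0 : w 0 = ‖w‖ * cos z.arg := by
    rw [← hn, Complex.norm_mul_cos_arg]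
  have h1 : w 1 = ‖w‖ * sin z.arg := by
    rw [← hn, Complex.norm_mul_sin_arg]
  refine ⟨toIcoMod two_pi_pos θ z.arg, toIcoMod_mem_Ico two_pi_pos θ z.arg, ?_, ?_⟩
  · rw [h0]
    congr 1
    rw [toIcoMod, zsmul_eq_mul, Real.cos_sub_int_mul_two_pi]
  · rw [h1]
    congr 1
    rw [toIcoMod, zsmul_eq_mul, Real.sin_sub_int_mul_two_pi]

lemma ell_polar {w : Plane} {φ : ℝ} (h : w 0 = ‖w‖ * cos φ ∧ w 1 = ‖w‖ * sin φ) (t : ℝ) :
    ell t w = ‖w‖ * cos (φ - t) := by
  rw [ell, h.1, h.2, cos_sub]; ring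

lemma cos_pos_of_mem_Ioo' {x : ℝ} (h1 : -(π / 2) < x) (h2 : x < π / 2) : 0 < cos x :=
  cos_pos_of_mem_Ioo ⟨h1, h2⟩

/-- Points of the cone. -/
lemma polar_cone {θ β : ℝ} (hβ0 : 0 < β) (hβ : β < π) {w : Plane} (hw : w ≠ 0)
    (h0 : ell θ w ≤ 0) (h1 : ell (θ + β) w ≤ 0) :
    ∃ φ ∈ Icc (θ + β + π / 2) (θ + 3 * π / 2), w 0 = ‖w‖ * cos φ ∧ w 1 = ‖w‖ * sin φ := by
  obtain ⟨φ, hφ, hp⟩ := polar θ w
  have hn : 0 < ‖w‖ := norm_pos_iff.mpr hw
  have hpi := pi_pos
  rw [ell_polar hp] at h0 h1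
  have c0 : cos (φ - θ) ≤ 0 := by
    by_contra hc
    push Not at hc
    nlinarith [mul_pos hn hc]
  have c1 : cos (φ - (θ + β)) ≤ 0 := by
    by_contra hc
    push Not at hc
    nlinarith [mul_pos hn hc]
  have d1 : θ + π / 2 ≤ φ := by
    by_contra hc
    push Not at hc
    have := cos_pos_of_mem_Ioo' (x := φ - θ) (by linarith [hφ.1]) (by linarith)
    linarith
  have d2 : φ ≤ θ + 3 * π / 2 := by
    by_contra hc
    push Not at hc
    have := cos_pos_of_mem_Ioo' (x := φ - θ - 2 * π) (by linarith) (by linarith [hφ.2])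
    rw [cos_sub_two_pi] at this
    linarith
  refine ⟨φ, ⟨?_, d2⟩, hp⟩
  by_contra hc
  push Not at hc
  have := cos_pos_of_mem_Ioo' (x := φ - (θ + β)) (by linarith) (by linarith)
  linarith

lemma angle_polar {v w : Plane} (hv : v ≠ 0) (hw : w ≠ 0) {φ ψ : ℝ}
    (h1 : v 0 = ‖v‖ * cos φ ∧ v 1 = ‖v‖ * sin φ) (h2 : w 0 = ‖w‖ * cos ψ ∧ w 1 = ‖w‖ * sin ψ)
    (h : |φ - ψ| ≤ π) : InnerProductGeometry.angle v w = |φ - ψ| := by
  have hv' : ‖v‖ ≠ 0 := norm_ne_zero_iff.mpr hv
  have hw' : ‖w‖ ≠ 0 := norm_ne_zero_iff.mpr hw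
  have : inner ℝ v w / (‖v‖ * ‖w‖) = cos (|φ - ψ|) := by
    rw [inner_eq, h1.1, h1.2, h2.1, h2.2, cos_abs, cos_sub]
    field_simp
  rw [InnerProductGeometry.angle, this, arccos_cos (abs_nonneg _) h]

/-- The angle of sight at the intersection point of two support lines. -/
lemma sight_eq {S : Set Plane} (hS : IsCompact S) (hne : S.Nonempty) {θ β : ℝ} (hβ0 : 0 < β)
    (hβ : β < π) {P : Plane} (hP : P ∉ S) (h0 : ell θ P = supp S θ)
    (h1 : ell (θ + β) P = supp S (θ + β)) : sight S P = π - β := by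
  have hpi := pi_pos
  have hsub : ∀ x ∈ S, x - P ≠ 0 := by
    intro x hx h
    exact hP (sub_eq_zero.mp h ▸ hx)
  have hcone : ∀ x ∈ S, ∃ φ ∈ Icc (θ + β + π / 2) (θ + 3 * π / 2),
      (x - P) 0 = ‖x - P‖ * cos φ ∧ (x - P) 1 = ‖x - P‖ * sin φ := by
    intro x hx
    refine polar_cone hβ0 hβ (hsub x hx) ?_ ?_
    · rw [ell_sub, h0]; linarith [le_supp hS θ hx]
    · rw [ell_sub, h1]; linarith [le_supp hS (θ + β) hx]
  have hle : ∀ t ∈ {t : ℝ | ∃ x ∈ S, ∃ y ∈ S, t = EuclideanGeometry.angle x P y}, t ≤ π - β := by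
    rintro t ⟨x, hx, y, hy, rfl⟩
    obtain ⟨φ, hφ, hp⟩ := hcone x hx
    obtain ⟨ψ, hψ, hq⟩ := hcone y hy
    have habs : |φ - ψ| ≤ π - β := by
      rw [abs_le]
      constructor <;> linarith [hφ.1, hφ.2, hψ.1, hψ.2]
    rw [EuclideanGeometry.angle, vsub_eq_sub, vsub_eq_sub,
      angle_polar (hsub x hx) (hsub y hy) hp hq (by linarith)]
    exact habs
  refine le_antisymm (csSup_le ?_ hle) ?_
  · obtain ⟨x, hx⟩ := hne
    exact ⟨_, x, hx, x, hx, rfl⟩
  · refine le_csSup ⟨_, hle⟩ ?_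
    obtain ⟨x, hx, hx2⟩ := exists_supp hS hne θ
    obtain ⟨y, hy, hy2⟩ := exists_supp hS hne (θ + β)
    refine ⟨x, hx, y, hy, ?_⟩
    obtain ⟨φ, hφ, hp⟩ := hcone x hx
    obtain ⟨ψ, hψ, hq⟩ := hcone y hy
    have e1 : ell θ (x - P) = 0 := by rw [ell_sub, h0, hx2, sub_self]
    have e2 : ell (θ + β) (y - P) = 0 := by rw [ell_sub, h1, hy2, sub_self]
    rw [ell_polar hp] at e1
    rw [ell_polar hq] at e2
    have f1 : cos (φ - θ) = 0 :=
      (mul_eq_zero.mp e1).resolve_left (norm_ne_zero_iff.mpr (hsub x hx))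
    have f2 : cos (ψ - (θ + β)) = 0 :=
      (mul_eq_zero.mp e2).resolve_left (norm_ne_zero_iff.mpr (hsub y hy))
    have g1 : φ = θ + 3 * π / 2 := by
      by_contra hc
      have hlt : φ < θ + 3 * π / 2 := lt_of_le_of_ne hφ.2 hc
      have := cos_neg_of_pi_div_two_lt_of_lt (x := φ - θ) (by linarith [hφ.1]) (by linarith)
      linarith
    have g2 : ψ = θ + β + π / 2 := by
      by_contra hc
      have hlt : θ + β + π / 2 < ψ := lt_of_le_of_ne hψ.1 (Ne.symm hc)
      have := cos_neg_of_pi_div_two_lt_of_lt (x := ψ - (θ + β)) (by linarith)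
        (by linarith [hψ.2])
      linarith
    have habs : |φ - ψ| = π - β := by
      rw [g1, g2, abs_of_nonneg] <;> linarith
    rw [EuclideanGeometry.angle, vsub_eq_sub, vsub_eq_sub,
      angle_polar (hsub x hx) (hsub y hy) hp hq (by linarith), habs]

lemma ell_two_pi (t : ℝ) (x : Plane) : ell (t + 2 * π) x = ell t x := by
  simp only [ell, cos_add_two_pi, sin_add_two_pi]

lemma supp_two_pi (S : Set Plane) (t : ℝ) : supp S (t + 2 * π) = supp S t := by
  have : ell (t + 2 * π) = ell t := funext (ell_two_pi t)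
  rw [supp, supp, this]

lemma ell_pi (t : ℝ) (x : Plane) : ell (t + π) x = - ell t x := by
  simp only [ell, cos_add_pi, sin_add_pi]; ring

/-- If `v` is on all support lines for directions in a half line, then `S = {v}`. -/
lemma eq_of_supp_eq {S : Set Plane} (hS : IsCompact S) {v : Plane} {a : ℝ}
    (h : ∀ t, a ≤ t → ell t v = supp S t) {x : Plane} (hx : x ∈ S) : x = v := by
  have hpi := pi_pos
  have h1 : ∀ t, a ≤ t → ell t x = ell t v := by
    intro t ht
    have i1 := le_supp hS t hx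
    have i2 := le_supp hS (t + π) hx
    rw [← h t ht] at i1
    rw [← h (t + π) (by linarith), ell_pi, ell_pi] at i2
    linarith
  exact eq_of_ell (θ := a) (β := π / 2) (by simp) (h1 a le_rfl) (h1 (a + π / 2) (by linarith))

lemma local_const {S : Set Plane} (hS : IsCompact S) {β : ℝ} (hβ0 : 0 < β) (hβ : β < π)
    {θ θ' : ℝ} (h1 : θ ≤ θ') (h2 : θ' < θ + β) (hv : pt (supp S) β θ ∈ S)
    (hv' : pt (supp S) β θ' ∈ S) : pt (supp S) β θ' = pt (supp S) β θ := by
  have hs : sin β ≠ 0 := (sin_pos_of_pos_of_lt_pi hβ0 hβ).ne'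
  have e1 : ell θ' (pt (supp S) β θ) = supp S θ' :=
    supp_between hS hv hβ0 hβ (ell_pt _ _ _) (ell_pt' _ hs _) ⟨h1, h2.le⟩
  have e2 : ell (θ + β) (pt (supp S) β θ') = supp S (θ + β) :=
    supp_between hS hv' hβ0 hβ (ell_pt _ _ _) (ell_pt' _ hs _) ⟨h2.le, by linarith⟩
  have hs2 : sin (θ + β - θ') ≠ 0 :=
    (sin_pos_of_pos_of_lt_pi (by linarith) (by linarith)).ne'
  refine eq_of_ell (θ := θ') hs2 ?_ ?_
  · rw [ell_pt, e1]
  · rw [add_sub_cancel, e2, ell_pt' _ hs]

/-- All the points `pt` are in the closure of the isoptic. -/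
lemma pt_mem_closure {S : Set Plane} (hS : IsCompact S) (hnt : S.Nontrivial) {β : ℝ}
    (hβ0 : 0 < β) (hβ : β < π) (θ : ℝ) : pt (supp S) β θ ∈ closure (isoptic S (π - β)) := by
  have hs : sin β ≠ 0 := (sin_pos_of_pos_of_lt_pi hβ0 hβ).ne'
  have hcont : Continuous (pt (supp S) β) := pt_cont (supp_cont hS) β
  by_contra hcon
  set v := pt (supp S) β θ with hv
  have hmem : ∀ t, pt (supp S) β t ∉ closure (isoptic S (π - β)) → pt (supp S) β t ∈ S := by
    intro t ht
    by_contra hc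
    exact ht (subset_closure ⟨hc, sight_eq hS hnt.nonempty hβ0 hβ hc (ell_pt _ _ _)
      (ell_pt' _ hs _)⟩)
  have hall : ∀ b, θ ≤ b → pt (supp S) β b = v := by
    intro b hb
    have hcl : IsClosed ({t | pt (supp S) β t = v} ∩ Icc θ b) :=
      (isClosed_eq hcont continuous_const).inter isClosed_Icc
    refine hcl.Icc_subset_of_forall_mem_nhdsWithin hv.symm ?_ (right_mem_Icc.mpr hb)
    rintro t ⟨ht, ht2⟩
    have ht' : pt (supp S) β t = v := ht
    have hopen : {s | pt (supp S) β s ∉ closure (isoptic S (π - β))} ∈ nhds t := by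
      refine IsOpen.mem_nhds (isClosed_closure.preimage hcont).isOpen_compl ?_
      show pt (supp S) β t ∉ closure (isoptic S (π - β))
      rw [ht']; exact hcon
    have hlt : Iio (t + β) ∈ nhds t := Iio_mem_nhds (by linarith)
    filter_upwards [nhdsWithin_le_nhds hopen, nhdsWithin_le_nhds hlt, self_mem_nhdsWithin]
      with s hs1 hs2 hs3
    show pt (supp S) β s = v
    rw [← ht']
    refine local_const hS hβ0 hβ (le_of_lt hs3) hs2 ?_ (hmem s hs1)
    rw [ht', hv]
    exact hmem θ hcon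
  obtain ⟨x, hx, y, hy, hxy⟩ := hnt
  have key : ∀ t, θ ≤ t → ell t v = supp S t := by
    intro t ht
    rw [← hall t ht, ell_pt]
  exact hxy ((eq_of_supp_eq hS key hx).trans (eq_of_supp_eq hS key hy).symm)

/-- The functional `x ↦ ⟨x, (- sin θ, cos θ)⟩`. -/
noncomputable def ellp (θ : ℝ) (x : Plane) : ℝ := x 1 * cos θ - x 0 * sin θ

lemma ellp_cont : Continuous (fun p : ℝ × Plane => ellp p.1 p.2) := by
  unfold ellp
  fun_prop

lemma ellp_sub (θ : ℝ) (x y : Plane) : ellp θ (x - y) = ellp θ x - ellp θ y := by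
  simp only [ellp, PiLp.sub_apply]
  ring

lemma ell_add (t b : ℝ) (x : Plane) : ell (t + b) x = cos b * ell t x + sin b * ellp t x := by
  simp only [ell, ellp, cos_add, sin_add]; ring

lemma ell_sub' (t b : ℝ) (x : Plane) : ell (t - b) x = cos b * ell t x - sin b * ellp t x := by
  simp only [ell, ellp, cos_sub, sin_sub]; ring

lemma norm_sq_ell (t : ℝ) (x : Plane) : ‖x‖ ^ 2 = ell t x ^ 2 + ellp t x ^ 2 := by
  rw [norm_sq_eq, ell, ellp]
  linear_combination (-(x 0 ^ 2 + x 1 ^ 2)) * (sin_sq_add_cos_sq t)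

lemma eq_of_ell_ellp (t : ℝ) {x y : Plane} (h0 : ell t x = ell t y) (h1 : ellp t x = ellp t y) :
    x = y := by
  refine eq_of_ell (θ := t) (β := π / 2) (by simp) h0 ?_
  rw [ell_add, ell_add, h0, h1]

/-- The two intersection points of a support line with the circle: the point `pt (t - β)` is the
first one, and `pt t` is the second one. -/
lemma sign_claim {S : Set Plane} (hS : IsCompact S) (hnt : S.Nontrivial) {β : ℝ}
    (hβ0 : 0 < β) (hβ : β < π) {c : Plane} {r : ℝ}
    (hr : ∀ t, ‖pt (supp S) β t - c‖ = r) (t₀ : ℝ) :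
    0 ≤ ellp t₀ (pt (supp S) β t₀ - c) ∧ ellp t₀ (pt (supp S) β (t₀ - β) - c) ≤ 0 := by
  have hs0 : 0 < sin β := sin_pos_of_pos_of_lt_pi hβ0 hβ
  have hs : sin β ≠ 0 := hs0.ne'
  have hcont : Continuous (pt (supp S) β) := pt_cont (supp_cont hS) β
  set P := pt (supp S) β with hP
  set σ : ℝ → ℝ := fun t => ellp t (P t - c) with hσ
  set τ : ℝ → ℝ := fun t => ellp t (P (t - β) - c) with hτ
  have hσc : Continuous σ := ellp_cont.comp
    (by fun_prop : Continuous fun t => (t, P t - c))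
  have hτc : Continuous τ := ellp_cont.comp
    (by fun_prop : Continuous fun t => (t, P (t - β) - c))
  have hl1 : ∀ t, ell t (P t) = supp S t := fun t => ell_pt _ _ _
  have hl2 : ∀ t, ell t (P (t - β)) = supp S t := by
    intro t
    have := ell_pt' (supp S) hs (t - β)
    rwa [sub_add_cancel] at this
  have hl3 : ∀ t, ell (t + β) (P t) = supp S (t + β) := fun t => ell_pt' (supp S) hs t
  have hsq : ∀ t, σ t ^ 2 = τ t ^ 2 := by
    intro t
    have e1 := norm_sq_ell t (P t - c)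
    have e2 := norm_sq_ell t (P (t - β) - c)
    rw [hr] at e1 e2
    rw [ell_sub, hl1] at e1
    rw [ell_sub, hl2] at e2
    simp only [hσ, hτ]
    linarith
  -- coordinates of the points of `S` on the support line
  have hbtw : ∀ t, ∀ x ∈ S, ell t x = supp S t → τ t ≤ ellp t (x - c) ∧ ellp t (x - c) ≤ σ t := by
    intro t x hx hxt
    have i1 := le_supp hS (t - β) hx
    have i2 := le_supp hS (t + β) hx
    rw [← hl1 (t - β)] at i1
    rw [← hl3 t] at i2
    rw [ell_sub', ell_sub', hl2, hxt] at i1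
    rw [ell_add, ell_add, hl1, hxt] at i2
    simp only [hσ, hτ, ellp_sub]
    constructor <;> nlinarith
  have hle : ∀ t, τ t ≤ σ t := by
    intro t
    obtain ⟨x, hx, hx2⟩ := exists_supp hS hnt.nonempty t
    exact (hbtw t x hx hx2).1.trans (hbtw t x hx hx2).2
  -- if both points agree
  have heq : ∀ t, σ t = τ t → P t = P (t - β) ∧ P t ∈ S := by
    intro t ht
    have h1 : P t = P (t - β) := by
      refine eq_of_ell_ellp t ?_ ?_
      · rw [hl1, hl2]
      · simp only [hσ, hτ, ellp_sub] at ht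
        linarith
    refine ⟨h1, ?_⟩
    obtain ⟨x, hx, hx2⟩ := exists_supp hS hnt.nonempty t
    have h2 := hbtw t x hx hx2
    have h3 : x = P t := by
      refine eq_of_ell_ellp t ?_ ?_
      · rw [hl1, hx2]
      · have h4 : ellp t (x - c) = σ t := le_antisymm h2.2 (ht ▸ h2.1)
        simp only [hσ, ellp_sub] at h4
        linarith
    exact h3 ▸ hx
  by_contra hcon
  have hne : σ t₀ = τ t₀ ∧ σ t₀ ≠ 0 := by
    have h1 := hle t₀
    have h2 : (σ t₀ - τ t₀) * (σ t₀ + τ t₀) = 0 := by linarith [hsq t₀]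
    rcases mul_eq_zero.mp h2 with h3 | h3
    · refine ⟨by linarith, ?_⟩
      intro h4
      apply hcon
      show 0 ≤ σ t₀ ∧ τ t₀ ≤ 0
      constructor <;> linarith
    · exfalso
      apply hcon
      show 0 ≤ σ t₀ ∧ τ t₀ ≤ 0
      constructor <;> linarith
  obtain ⟨hPP, hvS⟩ := heq t₀ hne.1
  set v := P t₀ with hv
  -- direction of `v - c`
  obtain ⟨a, ha1, ha2, ε, hε⟩ : ∃ a : ℝ, a < t₀ ∧ t₀ < a + π ∧ ∃ ε : ℝ, ∀ t,
      ellp t (v - c) = ε * sin (a - t) := by
    obtain ⟨φ, hφ, hp⟩ := polar (t₀ - π) (v - c)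
    have h1 : ∀ t, ellp t (v - c) = ‖v - c‖ * sin (φ - t) := by
      intro t
      rw [ellp, hp.1, hp.2, sin_sub]; ring
    have h2 : σ t₀ = ‖v - c‖ * sin (φ - t₀) := h1 t₀
    have h3 : sin (φ - t₀) ≠ 0 := by
      intro h; rw [h, mul_zero] at h2; exact hne.2 h2
    rcases lt_trichotomy φ t₀ with h4 | h4 | h4
    · refine ⟨φ, h4, ?_, ‖v - c‖, h1⟩
      rcases eq_or_lt_of_le hφ.1 with h5 | h5
      · exfalso; apply h3; rw [← h5]; simp
      · linarith
    · exfalso; apply h3; rw [h4]; simp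
    · refine ⟨φ - π, ?_, ?_, -‖v - c‖, ?_⟩
      · linarith [hφ.2]
      · linarith
      · intro t
        rw [h1 t, show φ - π - t = (φ - t) - π by ring, sin_sub_pi]; ring
  have hε0 : ε ≠ 0 := by
    intro h
    have := hε t₀
    rw [h, zero_mul] at this
    exact hne.2 this
  set B : Set ℝ := {t | P t = v ∧ P (t - β) = v} with hB
  have hBc : IsClosed B :=
    (isClosed_eq hcont continuous_const).inter
      (isClosed_eq (hcont.comp (by fun_prop)) continuous_const)
  have ht₀B : t₀ ∈ B := ⟨rfl, hPP.symm⟩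
  have hBint : ∀ t ∈ B, t ∈ Ioo a (a + π) → t ∈ interior B := by
    intro t ht hta
    rw [mem_interior_iff_mem_nhds]
    have hσt : σ t = ε * sin (a - t) := by
      simp only [hσ]; rw [ht.1]; exact hε t
    have hτt : τ t = ε * sin (a - t) := by
      simp only [hτ]; rw [ht.2]; exact hε t
    have hsin : sin (a - t) ≠ 0 := by
      have : 0 < sin (t - a) := sin_pos_of_pos_of_lt_pi (by linarith [hta.1]) (by linarith [hta.2])
      rw [show a - t = -(t - a) by ring, sin_neg]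
      linarith
    have hprod : 0 < σ t * τ t := by
      rw [hσt, hτt]
      exact mul_self_pos.mpr (mul_ne_zero hε0 hsin)
    have hsum : ∀ᶠ s in nhds t, 0 < σ s * τ s :=
      (hσc.mul hτc).continuousAt.eventually (lt_mem_nhds hprod)
    have hv1 : ell (t - β) v = supp S (t - β) := by rw [← ht.2]; exact hl1 _
    have hv2 : ell t v = supp S t := by rw [← ht.1]; exact hl1 _
    have hv3 : ell (t + β) v = supp S (t + β) := by rw [← ht.1]; exact hl3 _
    have hI1 : ∀ s ∈ Icc (t - β) t, ell s v = supp S s := by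
      intro s hs
      exact supp_between hS hvS hβ0 hβ hv1 (by rw [sub_add_cancel]; exact hv2)
        (by rw [sub_add_cancel]; exact hs)
    have hI2 : ∀ s ∈ Icc t (t + β), ell s v = supp S s := by
      intro s hs
      exact supp_between hS hvS hβ0 hβ hv2 hv3 hs
    filter_upwards [hsum, Ioo_mem_nhds (show t - β < t by linarith) (show t < t + β by linarith)]
      with s hs1 hs2
    have hst : σ s = τ s := by
      have h2 : (σ s - τ s) * (σ s + τ s) = 0 := by linarith [hsq s]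
      rcases mul_eq_zero.mp h2 with h3 | h3
      · linarith
      · exfalso
        have : σ s = - τ s := by linarith
        rw [this] at hs1
        nlinarith [sq_nonneg (τ s)]
    obtain ⟨hPs, -⟩ := heq s hst
    rcases le_total s t with h | h
    · have : v = P s := eq_pt hs (hI1 s ⟨hs2.1.le, h⟩)
        (hI2 (s + β) ⟨by linarith [hs2.1], by linarith⟩)
      exact ⟨this.symm, hPs.symm.trans this.symm⟩
    · have : v = P (s - β) := eq_pt hs (hI1 (s - β) ⟨by linarith, by linarith [hs2.2]⟩)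
        (by rw [sub_add_cancel]; exact hI2 s ⟨h, hs2.2.le⟩)
      exact ⟨hPs.trans this.symm, this.symm⟩
  have hsub : Ioo a (a + π) ⊆ interior B := by
    refine isPreconnected_Ioo.subset_of_closure_inter_subset isOpen_interior
      ⟨t₀, ⟨ha1, ha2⟩, hBint t₀ ht₀B ⟨ha1, ha2⟩⟩ ?_
    rintro t ⟨h1, h2⟩
    exact hBint t (hBc.closure_subset_iff.mpr interior_subset h1) h2
  have hIcc : Icc a (a + π) ⊆ B := by
    have hpi := pi_pos
    rw [← closure_Ioo (by linarith : a ≠ a + π)]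
    exact hBc.closure_subset_iff.mpr (hsub.trans interior_subset)
  have hpi := pi_pos
  have k1 : ell a v = supp S a := by rw [← (hIcc ⟨le_rfl, by linarith⟩).1]; exact hl1 a
  have k2 : ell (a - β) v = supp S (a - β) := by
    rw [← (hIcc ⟨le_rfl, by linarith⟩).2]; exact hl1 _
  have k3 : ell (a + π) v = supp S (a + π) := by
    rw [← (hIcc ⟨by linarith, le_rfl⟩).1]; exact hl1 _
  have k4 : ell (a + π / 2) v = supp S (a + π / 2) := by
    rw [← (hIcc ⟨by linarith, by linarith⟩ : a + π / 2 ∈ B).1]; exact hl1 _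
  have hall : ∀ x ∈ S, x = v := by
    intro x hx
    have i1 := le_supp hS a hx
    have i2 := le_supp hS (a - β) hx
    have i3 := le_supp hS (a + π) hx
    have i4 := le_supp hS (a + π / 2) hx
    rw [← k1] at i1
    rw [← k2, ell_sub', ell_sub'] at i2
    rw [← k3, ell_pi, ell_pi] at i3
    rw [← k4, ell_add, ell_add, cos_pi_div_two, sin_pi_div_two] at i4
    have j1 : ell a x = ell a v := by linarith
    rw [j1] at i2 i4
    have j2 : ellp a x ≤ ellp a v := by linarith
    have j3 : sin β * ellp a v ≤ sin β * ellp a x := by linarith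
    have j4 : ellp a v ≤ ellp a x := le_of_mul_le_mul_left j3 hs0
    exact eq_of_ell_ellp a j1 (le_antisymm j2 j4)
  obtain ⟨x, hx, y, hy, hxy⟩ := hnt
  exact hxy ((hall x hx).trans (hall y hy).symm)

/-- The function `arccos (h / r)`, where `h` is the support function with respect to the centre of
the circle, is reflected in `β / 2` by the shift by `β`. -/
lemma arc_rel {S : Set Plane} (hS : IsCompact S) (hnt : S.Nontrivial) {β : ℝ}
    (hβ0 : 0 < β) (hβ : β < π) {c : Plane} {r : ℝ} (hr0 : 0 < r)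
    (hr : ∀ t, ‖pt (supp S) β t - c‖ = r) (t : ℝ) :
    |supp S t - ell t c| ≤ r ∧
    arccos ((supp S (t + β) - ell (t + β) c) / r) = β - arccos ((supp S t - ell t c) / r) := by
  have hs0 : 0 < sin β := sin_pos_of_pos_of_lt_pi hβ0 hβ
  have hs : sin β ≠ 0 := hs0.ne'
  have hpi := pi_pos
  set P := pt (supp S) β with hP
  set g : ℝ → ℝ := fun t => supp S t - ell t c with hg
  have hl1 : ∀ t, ell t (P t - c) = g t := fun t => by rw [ell_sub, ell_pt]
  have hl2 : ∀ t, ell t (P (t - β) - c) = g t := by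
    intro t
    have := ell_pt' (supp S) hs (t - β)
    rw [sub_add_cancel] at this
    rw [ell_sub, this]
  have hl3 : ∀ t, ell (t + β) (P t - c) = g (t + β) := fun t => by
    rw [ell_sub, ell_pt' (supp S) hs t]
  have habs : ∀ t, |g t| ≤ r := by
    intro t
    have e1 := norm_sq_ell t (P t - c)
    rw [hr, hl1] at e1
    exact abs_le_of_sq_le_sq (by nlinarith [sq_nonneg (ellp t (P t - c))]) hr0.le
  set a : ℝ → ℝ := fun t => arccos (g t / r) with ha
  have hcos : ∀ t, r * cos (a t) = g t := by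
    intro t
    have h1 := abs_le.mp (habs t)
    simp only [ha]
    rw [cos_arccos]
    · field_simp
    · rw [le_div_iff₀ hr0]; linarith
    · rw [div_le_iff₀ hr0]; linarith
  have hsin : ∀ t, 0 ≤ r * sin (a t) := fun t =>
    mul_nonneg hr0.le (sin_nonneg_of_nonneg_of_le_pi (arccos_nonneg _) (arccos_le_pi _))
  have hσ : ∀ t, ellp t (P t - c) = r * sin (a t) := by
    intro t
    have h1 := (sign_claim hS hnt hβ0 hβ hr t).1
    have e1 := norm_sq_ell t (P t - c)
    rw [hr, hl1, ← hcos] at e1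
    refine (sq_eq_sq₀ h1 (hsin t)).mp ?_
    linear_combination (-1) * e1 - r ^ 2 * (sin_sq_add_cos_sq (a t))
  have hτ : ∀ t, ellp t (P (t - β) - c) = - (r * sin (a t)) := by
    intro t
    have h1 := (sign_claim hS hnt hβ0 hβ hr t).2
    have e1 := norm_sq_ell t (P (t - β) - c)
    rw [hr, hl2, ← hcos] at e1
    have h2 : - ellp t (P (t - β) - c) = r * sin (a t) := by
      refine (sq_eq_sq₀ (by linarith) (hsin t)).mp ?_
      linear_combination (-1) * e1 - r ^ 2 * (sin_sq_add_cos_sq (a t))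
    linarith
  have hp : ∀ t, g (t + β) = r * cos (a t - β) := by
    intro t
    rw [← hl3, ell_add, hl1, hσ, ← hcos, cos_sub]; ring
  have hm : ∀ t, g (t - β) = r * cos (a t - β) := by
    intro t
    have := hl1 (t - β)
    rw [ell_sub', hl2, hτ, ← hcos t] at this
    rw [← this, cos_sub]; ring
  have ha0 : ∀ t, 0 ≤ a t := fun t => arccos_nonneg _
  have hapi : ∀ t, a t ≤ π := fun t => arccos_le_pi _
  have hdiv : ∀ x : ℝ, r * x / r = x := fun x => by field_simp
  have hp' : ∀ t, a (t + β) = |a t - β| := by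
    intro t
    show arccos (g (t + β) / r) = _
    rw [hp, hdiv, ← cos_abs, arccos_cos (abs_nonneg _)]
    rw [abs_le]; constructor <;> linarith [ha0 t, hapi t]
  have hm' : ∀ t, a (t - β) = |a t - β| := by
    intro t
    show arccos (g (t - β) / r) = _
    rw [hm, hdiv, ← cos_abs, arccos_cos (abs_nonneg _)]
    rw [abs_le]; constructor <;> linarith [ha0 t, hapi t]
  refine ⟨habs t, ?_⟩
  show a (t + β) = β - a t
  have h1 := hp' t
  have h2 := hm' (t + β)
  rw [add_sub_cancel_right] at h2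
  rcases le_total (a t) β with h | h
  · rw [h1, abs_of_nonpos (by linarith)]; ring
  · rw [abs_of_nonneg (by linarith)] at h1
    rcases abs_cases (a (t + β) - β) with ⟨h3, h4⟩ | ⟨h3, h4⟩
    · rw [h3] at h2; linarith
    · rw [h3] at h2; linarith

lemma sight_subsingleton {S : Set Plane} (hS : S.Subsingleton) {P : Plane} (hP : P ∉ S) :
    sight S P = 0 := by
  rcases hS.eq_empty_or_singleton with h | ⟨v, h⟩
  · subst h; simp [sight]
  · subst h
    have hv : v ≠ P := fun h => hP h.symm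
    have : {t : ℝ | ∃ x ∈ ({v} : Set Plane), ∃ y ∈ ({v} : Set Plane),
        t = EuclideanGeometry.angle x P y} = {0} := by
      ext t
      simp only [mem_singleton_iff, exists_eq_left, mem_ofPred_eq]
      rw [EuclideanGeometry.angle_self_of_ne hv]
    rw [sight, this, csSup_singleton]

lemma nontrivial_of_circle {S : Set Plane} {α : ℝ} (hα : 0 < α)
    (h : IsCircle (closure (isoptic S α))) : S.Nontrivial := by
  by_contra hn
  rw [Set.not_nontrivial_iff] at hn
  have he : isoptic S α = ∅ := by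
    ext P
    simp only [isoptic, mem_ofPred_eq, mem_empty_iff_false, iff_false, not_and]
    intro hP h0
    rw [sight_subsingleton hn hP] at h0
    linarith
  obtain ⟨c, r, hr, h⟩ := h
  rw [he, closure_empty] at h
  have : (Metric.sphere c r).Nonempty := NormedSpace.sphere_nonempty.mpr hr.le
  rw [← h] at this
  exact Set.not_nonempty_empty this

/-- What we know about a set with a circular isoptic. -/
lemma circ_data {S : Set Plane} (hS : IsCompact S) {α : ℝ} (hα0 : 0 < α) (hα : α < π)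
    {c : Plane} {r : ℝ} (hr : 0 < r) (h : closure (isoptic S α) = Metric.sphere c r) :
    S.Nontrivial ∧ (∀ t, ‖pt (supp S) (π - α) t - c‖ = r) := by
  have hnt := nontrivial_of_circle hα0 ⟨c, r, hr, h⟩
  refine ⟨hnt, fun t => ?_⟩
  have h1 := pt_mem_closure hS hnt (β := π - α) (by linarith) (by linarith) t
  rw [sub_sub_cancel, h, mem_sphere_iff_norm] at h1
  exact h1

lemma ell_second_diff (t a b : ℝ) (x : Plane) :
    ell (t + 2 * a + 2 * b) x - ell (t + 2 * a) x - ell (t + 2 * b) x + ell t x =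
      -4 * sin a * sin b * ell (t + a + b) x := by
  have key : ∀ s d : ℝ, ell (s + d) x + ell (s - d) x = 2 * cos d * ell s x := by
    intro s d
    rw [ell_add, ell_sub']; ring
  have h1 := key (t + a + b) (a + b)
  have h2 := key (t + a + b) (a - b)
  rw [show t + a + b + (a + b) = t + 2 * a + 2 * b by ring,
    show t + a + b - (a + b) = t by ring, cos_add] at h1
  rw [show t + a + b + (a - b) = t + 2 * a by ring,
    show t + a + b - (a - b) = t + 2 * b by ring, cos_sub] at h2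
  linarith

lemma eq_zero_of_ell {x : Plane} (h : ∀ t, ell t x = 0) : x = 0 := by
  refine eq_of_ell_ellp 0 ?_ ?_
  · rw [h 0]; simp [ell]
  · have := h (π / 2)
    simp only [ell, cos_pi_div_two, sin_pi_div_two] at this
    simp only [ellp, cos_zero, sin_zero]
    simpa using this

/-- Functions with the reflection property. -/
def Refl (g : ℝ → ℝ) (β r : ℝ) : Prop :=
  ∀ t, |g t| ≤ r ∧ arccos (g (t + β) / r) = β - arccos (g t / r)

lemma Refl.eq_cos {g : ℝ → ℝ} {β r : ℝ} (hr : 0 < r) (h : Refl g β r) (t : ℝ) :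
    g t = r * cos (arccos (g t / r)) := by
  have h1 := abs_le.mp (h t).1
  rw [cos_arccos]
  · field_simp
  · rw [le_div_iff₀ hr]; linarith
  · rw [div_le_iff₀ hr]; linarith

lemma Refl.shift {g : ℝ → ℝ} {β r : ℝ} (hr : 0 < r) (h : Refl g β r) (t : ℝ) :
    g (t + β) = r * cos (β - arccos (g t / r)) := by
  rw [h.eq_cos hr (t + β), (h t).2]

lemma Refl.period {g : ℝ → ℝ} {β r : ℝ} (hr : 0 < r) (h : Refl g β r) (t : ℝ) :
    g (t + 2 * β) = g t := by
  rw [show t + 2 * β = t + β + β by ring, h.shift hr, (h t).2, sub_sub_cancel, ← h.eq_cos hr]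

lemma Refl.quad {g : ℝ → ℝ} {β r : ℝ} (hr : 0 < r) (h : Refl g β r) (t : ℝ) :
    g t ^ 2 + g (t + β) ^ 2 - 2 * cos β * (g t * g (t + β)) = r ^ 2 * sin β ^ 2 := by
  rw [h.shift hr, h.eq_cos hr t]
  set a := arccos (g t / r)
  rw [show arccos (r * cos a / r) = a by
    rw [mul_div_cancel_left₀ _ hr.ne', arccos_cos (arccos_nonneg _) (arccos_le_pi _)]]
  rw [cos_sub]
  linear_combination (-(r ^ 2 * cos a ^ 2)) * (sin_sq_add_cos_sq β) +
    (r ^ 2 * sin β ^ 2) * (sin_sq_add_cos_sq a)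

lemma Refl.anti {g : ℝ → ℝ} {β r : ℝ} (hr : 0 < r) (h : Refl g β r) (s t : ℝ) :
    g s ≤ g t ↔ g (t + β) ≤ g (s + β) := by
  have key : ∀ s t, g s ≤ g t ↔ arccos (g t / r) ≤ arccos (g s / r) := by
    intro s t
    constructor
    · intro h1
      exact antitone_arccos (div_le_div_of_nonneg_right h1 hr.le)
    · intro h1
      rw [h.eq_cos hr s, h.eq_cos hr t]
      refine mul_le_mul_of_nonneg_left ?_ hr.le
      exact strictAntiOn_cos.antitoneOn ⟨arccos_nonneg _, arccos_le_pi _⟩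
        ⟨arccos_nonneg _, arccos_le_pi _⟩ h1
  rw [key s t, key (t + β) (s + β), (h s).2, (h t).2]
  constructor <;> intro <;> linarith

lemma recurrence (γ : ℝ) {δ : ℝ} (hδ : 0 < δ) :
    ∃ n : ℕ, 0 < n ∧ ∃ k : ℤ, |n * γ - k * (2 * π)| < δ := by
  have hpi := pi_pos
  obtain ⟨N, hN⟩ := exists_nat_gt (2 * π / δ)
  have hN0 : 0 < N := by
    have : (0 : ℝ) < N := lt_trans (by positivity) hN
    exact_mod_cast this
  obtain ⟨k, hk0, hkN, hk⟩ := Real.exists_nat_abs_mul_sub_round_le (γ / (2 * π)) hN0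
  refine ⟨k, hk0, round (k * (γ / (2 * π))), ?_⟩
  have h1 : (k : ℝ) * γ - round ((k : ℝ) * (γ / (2 * π))) * (2 * π) =
      (2 * π) * ((k : ℝ) * (γ / (2 * π)) - round ((k : ℝ) * (γ / (2 * π)))) := by
    field_simp
  rw [h1, abs_mul, abs_of_pos (by positivity : 0 < 2 * π)]
  have hN' : (0 : ℝ) < N := by exact_mod_cast hN0
  calc 2 * π * |(k : ℝ) * (γ / (2 * π)) - round ((k : ℝ) * (γ / (2 * π)))|
      ≤ 2 * π * (1 / (N + 1)) := by gcongr
    _ ≤ 2 * π * (1 / N) := by
        gcongr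
        linarith
    _ < δ := by
        rw [div_lt_iff₀ hδ] at hN
        rw [mul_one_div, div_lt_iff₀ hN']
        linarith

lemma period_int {g : ℝ → ℝ} (hper : ∀ t, g (t + 2 * π) = g t) (k : ℤ) (t : ℝ) :
    g (t + k * (2 * π)) = g t := by
  have : Function.Periodic g (2 * π) := hper
  exact this.int_mul k t

lemma no_incr {g : ℝ → ℝ} (hg : Continuous g) (hper : ∀ t, g (t + 2 * π) = g t)
    {β₁ β₂ r₁ r₂ : ℝ} (hr₁ : 0 < r₁) (hr₂ : 0 < r₂) (h₁ : Refl g β₁ r₁) (h₂ : Refl g β₂ r₂)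
    (θ : ℝ) : ¬ g θ < g (θ + (β₁ - β₂)) := by
  intro hlt
  set γ := β₁ - β₂ with hγ
  have hmono : ∀ s t, g s ≤ g t ↔ g (s + γ) ≤ g (t + γ) := by
    intro s t
    have e1 := h₂.anti hr₂ (t - β₂) (s - β₂)
    rw [sub_add_cancel, sub_add_cancel] at e1
    have e2 := h₁.anti hr₁ (t - β₂) (s - β₂)
    rw [show t - β₂ + β₁ = t + γ by rw [hγ]; ring, show s - β₂ + β₁ = s + γ by rw [hγ]; ring] at e2
    exact e1.symm.trans e2
  have hstrict : ∀ s t, g s < g t → g (s + γ) < g (t + γ) := by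
    intro s t h
    rw [← not_le] at h ⊢
    exact fun h3 => h ((hmono t s).mpr h3)
  have hn : ∀ n : ℕ, g (θ + n * γ) < g (θ + (n + 1 : ℕ) * γ) := by
    intro n
    induction n with
    | zero => simpa using hlt
    | succ n ih =>
      have := hstrict _ _ ih
      rw [show θ + n * γ + γ = θ + (n + 1 : ℕ) * γ by push_cast; ring,
        show θ + (n + 1 : ℕ) * γ + γ = θ + (n + 1 + 1 : ℕ) * γ by push_cast; ring] at this
      exact this
  have hm : StrictMono fun n : ℕ => g (θ + n * γ) := strictMono_nat_of_lt_succ hn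
  have hcont : ∀ᶠ s in nhds θ, g s < g (θ + γ) :=
    hg.continuousAt.eventually (gt_mem_nhds hlt)
  rw [Metric.eventually_nhds_iff] at hcont
  obtain ⟨δ, hδ, hcont⟩ := hcont
  obtain ⟨n, hn0, k, hk⟩ := recurrence γ hδ
  have h3 : g (θ + n * γ) < g (θ + γ) := by
    have := hcont (y := θ + n * γ - k * (2 * π)) (by
      rw [Real.dist_eq, show θ + n * γ - k * (2 * π) - θ = n * γ - k * (2 * π) by ring]
      exact hk)
    rwa [← period_int hper k, sub_add_cancel] at this
  have h4 : g (θ + (1 : ℕ) * γ) ≤ g (θ + n * γ) := hm.monotone hn0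
  rw [Nat.cast_one, one_mul] at h4
  linarith

lemma const_of_sq {f : ℝ → ℝ} (hf : Continuous f) {D : ℝ} (h : ∀ t, f t ^ 2 = D) (t : ℝ) :
    f t = f 0 := by
  by_cases h0 : f 0 = 0
  · have h1 := h t
    rw [← h 0, h0] at h1
    have : f t ^ 2 = 0 := by rw [h1]; ring
    rw [h0]
    exact pow_eq_zero_iff (two_ne_zero) |>.mp this
  · have h1 := isPreconnected_univ.eq_or_eq_neg_of_sq_eq (f := f) (g := fun _ : ℝ => f 0)
      hf.continuousOn continuousOn_const (fun s _ => by simp [h]) (fun _ => h0)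
    rcases h1 with h1 | h1
    · exact h1 (mem_univ t)
    · have h2 := h1 (mem_univ 0)
      simp only [Pi.neg_apply] at h2
      exfalso
      apply h0
      linarith

/-- A function with two reflection properties is constant. -/
lemma const_of_refl {g : ℝ → ℝ} (hg : Continuous g) (hper : ∀ t, g (t + 2 * π) = g t)
    {β₁ β₂ r₁ r₂ : ℝ} (hr₁ : 0 < r₁) (hr₂ : 0 < r₂) (h₁ : Refl g β₁ r₁) (h₂ : Refl g β₂ r₂)
    (hcos : cos β₁ ≠ cos β₂) (t : ℝ) : g t = g 0 := by
  have hγ : ∀ θ, g (θ + (β₁ - β₂)) = g θ := by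
    intro θ
    refine le_antisymm (not_lt.mp (no_incr hg hper hr₁ hr₂ h₁ h₂ θ)) ?_
    have := not_lt.mp (no_incr hg hper hr₂ hr₁ h₂ h₁ (θ + (β₁ - β₂)))
    rwa [show θ + (β₁ - β₂) + (β₂ - β₁) = θ by ring] at this
  have heq : ∀ θ, g (θ + β₁) = g (θ + β₂) := by
    intro θ
    rw [← hγ (θ + β₂)]; congr 1; ring
  have hd : cos β₂ - cos β₁ ≠ 0 := fun h => hcos (by linarith)
  set k₁ := (r₁ ^ 2 * sin β₁ ^ 2 - r₂ ^ 2 * sin β₂ ^ 2) / (2 * (cos β₂ - cos β₁)) with hk₁
  have hxy : ∀ θ, g θ * g (θ + β₁) = k₁ := by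
    intro θ
    have q1 := h₁.quad hr₁ θ
    have q2 := h₂.quad hr₂ θ
    rw [← heq] at q2
    rw [hk₁, eq_div_iff (by simpa using hd)]
    linarith
  set k₂ := r₁ ^ 2 * sin β₁ ^ 2 + 2 * cos β₁ * k₁ with hk₂
  have hsum : ∀ θ, g θ ^ 2 + g (θ + β₁) ^ 2 = k₂ := by
    intro θ
    have q1 := h₁.quad hr₁ θ
    rw [hxy θ] at q1
    linarith
  have hgs : Continuous fun θ => g (θ + β₁) := hg.comp (by fun_prop)
  have hf : ∀ θ, g θ ^ 2 - g (θ + β₁) ^ 2 = g 0 ^ 2 - g (0 + β₁) ^ 2 := by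
    intro θ
    refine const_of_sq (f := fun θ => g θ ^ 2 - g (θ + β₁) ^ 2) (by fun_prop)
      (D := k₂ ^ 2 - 4 * k₁ ^ 2) (fun s => ?_) θ
    rw [← hsum s, ← hxy s]; ring
  refine const_of_sq hg (D := (k₂ + (g 0 ^ 2 - g (0 + β₁) ^ 2)) / 2) (fun s => ?_) t
  have h3 := hf s
  have h4 := hsum s
  linarith

lemma ell_add_pt (t : ℝ) (x y : Plane) : ell t (x + y) = ell t x + ell t y := by
  simp only [ell, PiLp.add_apply]
  ring

lemma ell_le_norm (t : ℝ) (x : Plane) : ell t x ≤ ‖x‖ := by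
  have h := norm_sq_ell t x
  exact (abs_le_of_sq_le_sq' (by nlinarith [sq_nonneg (ellp t x)]) (norm_nonneg x)).2

lemma supp_ball (c : Plane) {ρ : ℝ} (hρ : 0 < ρ) (t : ℝ) :
    supp (closedBall c ρ) t = ell t c + ρ := by
  have hc : IsCompact (closedBall c ρ) := isCompact_closedBall c ρ
  refine le_antisymm ?_ ?_
  · obtain ⟨x, hx, hx2⟩ := exists_supp hc ⟨c, mem_closedBall_self hρ.le⟩ t
    rw [mem_closedBall_iff_norm] at hx
    have h1 := ell_le_norm t (x - c)
    rw [ell_sub] at h1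
    linarith
  · set u : Plane := !₂[ρ * cos t, ρ * sin t] with hu
    have hu0 : u 0 = ρ * cos t := rfl
    have hu1 : u 1 = ρ * sin t := rfl
    have h1 : ell t u = ρ := by
      rw [ell, hu0, hu1]
      linear_combination ρ * (sin_sq_add_cos_sq t)
    have h2 : ‖u‖ ^ 2 = ρ ^ 2 := by
      rw [norm_sq_eq, hu0, hu1]
      linear_combination ρ ^ 2 * (sin_sq_add_cos_sq t)
    have h3 : ‖u‖ = ρ := (sq_eq_sq₀ (norm_nonneg _) hρ.le).mp h2
    have h4 := le_supp hc t (x := c + u) (by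
      rw [mem_closedBall_iff_norm, add_sub_cancel_left, h3])
    rwa [ell_add_pt, h1] at h4

/-- The isoptics of a disc. -/
lemma isoptic_ball (c : Plane) {ρ : ℝ} (hρ : 0 < ρ) {α : ℝ} (hα0 : 0 < α) (hα : α < π) :
    isoptic (closedBall c ρ) α = sphere c (ρ / sin (α / 2)) := by
  have hpi := pi_pos
  have hs : 0 < sin (α / 2) := sin_pos_of_pos_of_lt_pi (by linarith) (by linarith)
  have hs1 : sin (α / 2) < 1 := by
    have := strictMonoOn_sin (a := α / 2) (b := π / 2) ⟨by linarith, by linarith⟩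
      ⟨by linarith, by linarith⟩ (by linarith)
    rwa [sin_pi_div_two] at this
  have hc : IsCompact (closedBall c ρ) := isCompact_closedBall c ρ
  have key : ∀ P, P ∉ closedBall c ρ → sight (closedBall c ρ) P = π - 2 * arccos (ρ / ‖P - c‖) := by
    intro P hP
    have hlt : ρ < ‖P - c‖ := by
      rw [mem_closedBall_iff_norm, not_le] at hP; exact hP
    have hR : 0 < ‖P - c‖ := hρ.trans hlt
    have hq1 : ρ / ‖P - c‖ < 1 := (div_lt_one hR).mpr hlt
    have hq0 : 0 < ρ / ‖P - c‖ := div_pos hρ hR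
    obtain ⟨φ, hφ, hp⟩ := polar 0 (P - c)
    have hcos : cos (arccos (ρ / ‖P - c‖)) = ρ / ‖P - c‖ := cos_arccos (by linarith) hq1.le
    have hRcos : ‖P - c‖ * (ρ / ‖P - c‖) = ρ := by field_simp
    refine sight_eq hc ⟨c, mem_closedBall_self hρ.le⟩ (θ := φ - arccos (ρ / ‖P - c‖))
      (β := 2 * arccos (ρ / ‖P - c‖)) ?_ ?_ hP ?_ ?_
    · have := arccos_pos.mpr hq1
      linarith
    · have := arccos_lt_pi_div_two.mpr hq0
      linarith
    · rw [supp_ball c hρ]
      have h1 := ell_polar hp (φ - arccos (ρ / ‖P - c‖))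
      rw [ell_sub, sub_sub_cancel, hcos, hRcos] at h1
      linarith
    · rw [supp_ball c hρ]
      have h1 := ell_polar hp (φ - arccos (ρ / ‖P - c‖) + 2 * arccos (ρ / ‖P - c‖))
      rw [ell_sub, show φ - (φ - arccos (ρ / ‖P - c‖) + 2 * arccos (ρ / ‖P - c‖)) =
        - arccos (ρ / ‖P - c‖) by ring, cos_neg, hcos, hRcos] at h1
      linarith
  ext P
  rw [mem_sphere_iff_norm]
  constructor
  · rintro ⟨hP, h⟩
    rw [key P hP] at h
    have hlt : ρ < ‖P - c‖ := by
      rw [mem_closedBall_iff_norm, not_le] at hP; exact hP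
    have hR : 0 < ‖P - c‖ := hρ.trans hlt
    have h1 : arccos (ρ / ‖P - c‖) = π / 2 - α / 2 := by linarith
    have h2 : ρ / ‖P - c‖ = sin (α / 2) := by
      rw [← cos_pi_div_two_sub, ← h1, cos_arccos]
      · have := div_pos hρ hR; linarith
      · exact ((div_lt_one hR).mpr hlt).le
    rw [← h2]
    field_simp
  · intro h
    have hR : 0 < ‖P - c‖ := by rw [h]; positivity
    have hlt : ρ < ‖P - c‖ := by
      rw [h, lt_div_iff₀ hs]
      nlinarith
    have hP : P ∉ closedBall c ρ := by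
      rw [mem_closedBall_iff_norm, not_le]; exact hlt
    refine ⟨hP, ?_⟩
    have h2 : ρ / ‖P - c‖ = cos (π / 2 - α / 2) := by
      rw [cos_pi_div_two_sub, h]
      field_simp
    rw [key P hP, h2, arccos_cos (by linarith) (by linarith)]
    ring

/-- A compact convex set with constant support function with respect to `c` is a disc. -/
lemma eq_ball {S : Set Plane} (hS : IsCompact S) (hconv : Convex ℝ S) (hnt : S.Nontrivial)
    {c : Plane} {ρ : ℝ} (h : ∀ t, supp S t - ell t c = ρ) : 0 < ρ ∧ S = closedBall c ρ := by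
  have hsub : ∀ x ∈ S, ‖x - c‖ ≤ ρ := by
    intro x hx
    obtain ⟨φ, hφ, hp⟩ := polar 0 (x - c)
    have h1 := ell_polar hp φ
    rw [sub_self, cos_zero, mul_one, ell_sub] at h1
    have h2 := le_supp hS φ hx
    linarith [h φ]
  have hρ : 0 < ρ := by
    obtain ⟨x, hx, y, hy, hxy⟩ := hnt
    by_contra hc
    push Not at hc
    apply hxy
    have h1 : ‖x - c‖ = 0 := le_antisymm ((hsub x hx).trans hc) (norm_nonneg _)
    have h2 : ‖y - c‖ = 0 := le_antisymm ((hsub y hy).trans hc) (norm_nonneg _)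
    rw [norm_eq_zero, sub_eq_zero] at h1 h2
    rw [h1, h2]
  refine ⟨hρ, Subset.antisymm (fun x hx => mem_closedBall_iff_norm.mpr (hsub x hx)) ?_⟩
  intro x hx
  by_contra hxS
  obtain ⟨f, u, hf1, hf2⟩ := geometric_hahn_banach_closed_point hconv hS.isClosed hxS
  -- represent `f` by a direction
  set w : Plane := !₂[f !₂[1, 0], f !₂[0, 1]] with hw
  have hw0 : w 0 = f !₂[1, 0] := rfl
  have hw1 : w 1 = f !₂[0, 1] := rfl
  have hf : ∀ z : Plane, f z = z 0 * w 0 + z 1 * w 1 := by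
    intro z
    have hz : z = z 0 • (!₂[1, 0] : Plane) + z 1 • (!₂[0, 1] : Plane) := by
      refine ext2 ?_ ?_ <;> simp
    conv_lhs => rw [hz]
    rw [map_add, map_smul, map_smul, smul_eq_mul, smul_eq_mul, hw0, hw1]
  obtain ⟨φ, hφ, hp⟩ := polar 0 w
  have hfell : ∀ z : Plane, f z = ‖w‖ * ell φ z := by
    intro z
    rw [hf, hp.1, hp.2, ell]; ring
  obtain ⟨y, hy, hy2⟩ := exists_supp hS hnt.nonempty φ
  have h1 := hf1 y hy
  rw [hfell] at h1 hf2
  have h2 : ell φ x ≤ ell φ y := by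
    have h3 := ell_le_norm φ (x - c)
    rw [ell_sub] at h3
    rw [mem_closedBall_iff_norm] at hx
    linarith [h φ]
  have h3 := mul_le_mul_of_nonneg_left h2 (norm_nonneg w)
  linarith

theorem main {S : Set Plane} (hS : IsCompact S) (hconv : Convex ℝ S) {α₁ α₂ : ℝ}
    (h₁ : α₁ ∈ Ioo 0 π) (h₂ : α₂ ∈ Ioo 0 π) (hne : α₁ ≠ α₂) {c₁ c₂ : Plane} {r₁ r₂ : ℝ}
    (hr₁ : 0 < r₁) (hr₂ : 0 < r₂) (hc₁ : closure (isoptic S α₁) = sphere c₁ r₁)
    (hc₂ : closure (isoptic S α₂) = sphere c₂ r₂) :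
    c₁ = c₂ ∧ ∃ ρ > 0, S = closedBall c₁ ρ := by
  have hpi := pi_pos
  obtain ⟨hnt, hd₁⟩ := circ_data hS h₁.1 h₁.2 hr₁ hc₁
  obtain ⟨-, hd₂⟩ := circ_data hS h₂.1 h₂.2 hr₂ hc₂
  set β₁ := π - α₁ with hβ₁
  set β₂ := π - α₂ with hβ₂
  have hβ₁0 : 0 < β₁ := by linarith [h₁.2]
  have hβ₁1 : β₁ < π := by linarith [h₁.1]
  have hβ₂0 : 0 < β₂ := by linarith [h₂.2]
  have hβ₂1 : β₂ < π := by linarith [h₂.1]
  have hR₁ : Refl (fun t => supp S t - ell t c₁) β₁ r₁ := fun t =>
    arc_rel hS hnt hβ₁0 hβ₁1 hr₁ hd₁ t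
  have hR₂ : Refl (fun t => supp S t - ell t c₂) β₂ r₂ := fun t =>
    arc_rel hS hnt hβ₂0 hβ₂1 hr₂ hd₂ t
  have hs₁ : sin β₁ ≠ 0 := (sin_pos_of_pos_of_lt_pi hβ₁0 hβ₁1).ne'
  have hs₂ : sin β₂ ≠ 0 := (sin_pos_of_pos_of_lt_pi hβ₂0 hβ₂1).ne'
  have hcc : c₁ = c₂ := by
    have hz : c₂ - c₁ = 0 := by
      refine eq_zero_of_ell fun t => ?_
      have h := ell_second_diff (t - β₁ - β₂) β₁ β₂ (c₂ - c₁)
      rw [show t - β₁ - β₂ + β₁ + β₂ = t by ring] at h
      have p1 := hR₁.period hr₁ (t - β₁ - β₂)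
      have p2 := hR₁.period hr₁ (t - β₁ - β₂ + 2 * β₂)
      have p3 := hR₂.period hr₂ (t - β₁ - β₂)
      have p4 := hR₂.period hr₂ (t - β₁ - β₂ + 2 * β₁)
      rw [show t - β₁ - β₂ + 2 * β₂ + 2 * β₁ = t - β₁ - β₂ + 2 * β₁ + 2 * β₂ by ring] at p2
      rw [ell_sub, ell_sub, ell_sub, ell_sub] at h
      have h5 : -4 * sin β₁ * sin β₂ * ell t (c₂ - c₁) = 0 := by
        rw [← h]; linarith
      have h6 : -4 * sin β₁ * sin β₂ ≠ 0 := by
        simp [hs₁, hs₂]
      exact (mul_eq_zero.mp h5).resolve_left h6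
    exact (sub_eq_zero.mp hz).symm
  refine ⟨hcc, ?_⟩
  rw [← hcc] at hR₂
  have hcos : cos β₁ ≠ cos β₂ := by
    intro h
    have := injOn_cos ⟨hβ₁0.le, hβ₁1.le⟩ ⟨hβ₂0.le, hβ₂1.le⟩ h
    apply hne
    linarith
  have hconst := const_of_refl (g := fun t => supp S t - ell t c₁)
    ((supp_cont hS).sub (ell_cont.comp (by fun_prop : Continuous fun t : ℝ => (t, c₁))))
    (fun t => by simp only [supp_two_pi, ell_two_pi]) hr₁ hr₂ hR₁ hR₂ hcos
  obtain ⟨hρ, hball⟩ := eq_ball hS hconv hnt hconst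
  exact ⟨_, hρ, hball⟩

end Pool.Agent.Helper65.Iso
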