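import Mathlib

open scoped ENNReal

namespace Pool.Agent.Helper65.Lorentz

noncomputable section

/-- block index -/
def blk (n : ℕ) : ℕ := Nat.log 2 (n + 1)
/-- position in the block, starting from 1 -/
def pos (n : ℕ) : ℕ := n + 2 - 2 ^ blk n
/-- the `i`-th block -/
def S (i : ℕ) : Finset ℕ := Finset.Ico (2 ^ i - 1) (2 ^ (i + 1) - 1)
/-- the weight -/
def w (n : ℕ) : ℝ := 1 / √(pos n)
/-- the harmonic sum of the block -/
def h (i : ℕ) : ℝ := ∑ n ∈ S i, w n ^ 2

lemma mem_S {n i : ℕ} : n ∈ S i ↔ blk n = i := by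
  unfold S blk
  rw [Finset.mem_Ico, Nat.log_eq_iff (Or.inr ⟨by norm_num, by omega⟩)]
  have h1 := Nat.one_le_two_pow (n := i)
  have h2 := pow_succ 2 i
  constructor
  · rintro ⟨h3, h4⟩
    constructor <;> omega
  · rintro ⟨h3, h4⟩
    constructor <;> omega

lemma two_pow_blk_le (n : ℕ) : 2 ^ blk n ≤ n + 1 := Nat.pow_log_le_self 2 (by omega)

lemma pos_pos (n : ℕ) : 1 ≤ pos n := by
  have := two_pow_blk_le n
  unfold pos; omega

lemma pos_add (n : ℕ) : pos n + 2 ^ blk n = n + 2 := by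
  have := two_pow_blk_le n
  unfold pos; omega

lemma pos_injOn (i : ℕ) : Set.InjOn pos (S i : Set ℕ) := by
  intro a ha b hb hab
  have ha' := mem_S.1 (Finset.mem_coe.1 ha)
  have hb' := mem_S.1 (Finset.mem_coe.1 hb)
  have h1 := pos_add a
  have h2 := pos_add b
  rw [ha'] at h1
  rw [hb'] at h2
  omega

lemma w_pos (n : ℕ) : 0 < w n := by
  unfold w
  have : (0 : ℝ) < pos n := by exact_mod_cast pos_pos n
  positivity

lemma w_sq (n : ℕ) : w n ^ 2 = 1 / (pos n : ℝ) := by
  unfold w
  rw [div_pow, Real.sq_sqrt (by positivity), one_pow]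

lemma w_le_one (n : ℕ) : w n ≤ 1 := by
  have h1 : w n ^ 2 ≤ 1 := by
    rw [w_sq, div_le_one (by exact_mod_cast pos_pos n)]
    exact_mod_cast pos_pos n
  nlinarith [w_pos n]

/-- sums over a block are sums over positions -/
lemma sum_S (i : ℕ) (f : ℕ → ℝ) : ∑ n ∈ S i, f (pos n) = ∑ k ∈ Finset.range (2 ^ i), f (k + 1) := by
  have h1 := Nat.one_le_two_pow (n := i)
  have h2 := pow_succ 2 i
  refine Finset.sum_nbij' (fun n => pos n - 1) (fun k => k + 2 ^ i - 1) ?_ ?_ ?_ ?_ ?_
  · intro n hn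
    have h3 := mem_S.1 hn
    have h4 := pos_add n
    have h5 := pos_pos n
    rw [h3] at h4
    unfold S at hn
    rw [Finset.mem_Ico] at hn
    rw [Finset.mem_range]
    omega
  · intro k hk
    rw [Finset.mem_range] at hk
    unfold S
    rw [Finset.mem_Ico]
    omega
  · intro n hn
    have h3 := mem_S.1 hn
    have h4 := pos_add n
    have h5 := pos_pos n
    rw [h3] at h4
    omega
  · intro k hk
    rw [Finset.mem_range] at hk
    have h3 : k + 2 ^ i - 1 ∈ S i := by
      unfold S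
      rw [Finset.mem_Ico]
      omega
    have h4 := mem_S.1 h3
    have h5 := pos_add (k + 2 ^ i - 1)
    rw [h4] at h5
    omega
  · intro n hn
    have h5 := pos_pos n
    congr 1
    omega

lemma h_eq (i : ℕ) : h i = ∑ k ∈ Finset.range (2 ^ i), 1 / ((k : ℝ) + 1) := by
  unfold h
  have := sum_S i (fun p => 1 / (p : ℝ))
  simp only [w_sq]
  rw [this]
  push_cast
  rfl

lemma one_le_h (i : ℕ) : 1 ≤ h i := by
  rw [h_eq]
  have h1 : ∑ k ∈ Finset.range 1, 1 / ((k : ℝ) + 1) ≤
      ∑ k ∈ Finset.range (2 ^ i), 1 / ((k : ℝ) + 1) := by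
    apply Finset.sum_le_sum_of_subset_of_nonneg
    · apply Finset.range_subset_range.2 Nat.one_le_two_pow
    · intro k _ _
      positivity
  simpa using h1

lemma h_pos (i : ℕ) : 0 < h i := lt_of_lt_of_le one_pos (one_le_h i)

lemma h_tendsto : Filter.Tendsto h Filter.atTop Filter.atTop := by
  have h1 := Real.tendsto_sum_range_one_div_nat_succ_atTop
  have h2 : Filter.Tendsto (fun i : ℕ => 2 ^ i) Filter.atTop Filter.atTop :=
    tendsto_pow_atTop_atTop_of_one_lt (by norm_num)
  refine (h1.comp h2).congr ?_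
  intro i
  rw [h_eq]
  rfl

/-- for a finite set of positive integers, `∑ p^{-1/2} ≤ 2 |B|^{1/2}` -/
lemma sum_inv_sqrt_le (B : Finset ℕ) (hB : ∀ p ∈ B, 1 ≤ p) :
    ∑ p ∈ B, 1 / √(p : ℝ) ≤ 2 * √(B.card : ℝ) := by
  induction B using Finset.induction_on_max with
  | empty => simp
  | insert P B hP ih =>
    have hPB : P ∉ B := fun hh => lt_irrefl _ (hP P hh)
    rw [Finset.sum_insert hPB, Finset.card_insert_of_notMem hPB]
    have ih' := ih (fun p hp => hB p (Finset.mem_insert_of_mem hp))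
    have hcard : B.card + 1 ≤ P := by
      have hsub : B ⊆ Finset.Ico 1 P := by
        intro p hp
        rw [Finset.mem_Ico]
        exact ⟨hB p (Finset.mem_insert_of_mem hp), hP p hp⟩
      have h1 := Finset.card_le_card hsub
      rw [Nat.card_Ico] at h1
      have h2 := hB P (Finset.mem_insert_self _ _)
      omega
    set m : ℝ := (B.card : ℝ) with hm
    have hm0 : 0 ≤ m := by positivity
    have hPm : m + 1 ≤ (P : ℝ) := by
      rw [hm]; exact_mod_cast hcard
    have h3 : 1 / √(P : ℝ) ≤ 1 / √(m + 1) := by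
      apply one_div_le_one_div_of_le
      · positivity
      · exact Real.sqrt_le_sqrt hPm
    have h4 : 1 / √(m + 1) + 2 * √m ≤ 2 * √(m + 1) := by
      have h5 : 0 < √(m + 1) := by positivity
      have h6 : √(m + 1) ^ 2 = m + 1 := Real.sq_sqrt (by positivity)
      have h7 : √m ^ 2 = m := Real.sq_sqrt hm0
      have h8 : 0 ≤ √m := Real.sqrt_nonneg _
      rw [← sub_nonneg]
      have h9 : 2 * √(m + 1) - (1 / √(m + 1) + 2 * √m)
          = (√(m + 1) - √m) ^ 2 / √(m + 1) := by
        field_simp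
        nlinarith
      rw [h9]
      positivity
    push_cast
    linarith

/-- the sum of weights over a subset of a block -/
lemma sum_w_le (i : ℕ) (B : Finset ℕ) (hB : B ⊆ S i) : ∑ n ∈ B, w n ≤ 2 * √(B.card : ℝ) := by
  have hinj : Set.InjOn pos (B : Set ℕ) := (pos_injOn i).mono (by exact_mod_cast hB)
  have h1 : ∑ n ∈ B, w n = ∑ p ∈ B.image pos, 1 / √(p : ℝ) := by
    rw [Finset.sum_image hinj]
    rfl
  have h2 : (B.image pos).card = B.card := Finset.card_image_of_injOn hinj
  rw [h1, ← h2]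
  apply sum_inv_sqrt_le
  intro p hp
  obtain ⟨n, _, rfl⟩ := Finset.mem_image.1 hp
  exact pos_pos n

end

end Pool.Agent.Helper65.Lorentz
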