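import Mathlib

/-!
# Bases of `ℓ₂` and Lorentz sequence norms: definitions

All suprema and series are taken in `ℝ≥0∞`, so no junk values occur.
-/

open scoped ENNReal

namespace Pool.Agent.Helper65.Lorentz

noncomputable section

/-- `(x, xs)` is a (Markushevich) basis of the normed space `E`: a sequence `x` with linearly
dense span, with biorthogonal functionals `xs` which separate the points of `E`, and with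
`sup max (‖x n‖, ‖xs n‖) < ∞`. -/
structure IsBasis {𝕜 : Type*} [RCLike 𝕜] {E : Type*} [NormedAddCommGroup E] [NormedSpace 𝕜 E]
    (x : ℕ → E) (xs : ℕ → (E →L[𝕜] 𝕜)) : Prop where
  biorthogonal : ∀ n k, xs n (x k) = if n = k then 1 else 0
  dense_span : Dense ((Submodule.span 𝕜 (Set.range x) : Submodule 𝕜 E) : Set E)
  separates : ∀ f : E, (∀ n, xs n f = 0) → f = 0
  bounded : ∃ K : ℝ, ∀ n, ‖x n‖ ≤ K ∧ ‖xs n‖ ≤ K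

/-- `φ_m = sup {‖∑_{n ∈ A} ε_n x_n‖ : |A| ≤ m, |ε_n| = 1}`, as an element of `[0, ∞]`. -/
def fundamental (𝕜 : Type*) [RCLike 𝕜] {F : Type*} [NormedAddCommGroup F] [NormedSpace 𝕜 F]
    (x : ℕ → F) (m : ℕ) : ℝ≥0∞ :=
  ⨆ (A : Finset ℕ) (_ : A.card ≤ m) (ε : ℕ → 𝕜) (_ : ∀ n, ‖ε n‖ = 1),
    ENNReal.ofReal ‖∑ n ∈ A, ε n • x n‖

/-- `sup_m φ_m φ*_m / m < ∞`. -/
def IsBidemocratic {𝕜 : Type*} [RCLike 𝕜] {E : Type*} [NormedAddCommGroup E] [NormedSpace 𝕜 E]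
    (x : ℕ → E) (xs : ℕ → (E →L[𝕜] 𝕜)) : Prop :=
  ∃ C : ℝ≥0∞, C ≠ ∞ ∧ ∀ m : ℕ, 1 ≤ m → fundamental 𝕜 x m * fundamental 𝕜 xs m ≤ C * m

/-- The non-increasing rearrangement of `(|a_n|)`: `rearr a k` is the entry of index `k + 1`,
that is `inf {t ≥ 0 : #{n : |a_n| > t} ≤ k}`. -/
def rearr {𝕜 : Type*} [RCLike 𝕜] (a : ℕ → 𝕜) (k : ℕ) : ℝ≥0∞ :=
  sInf {t : ℝ≥0∞ | {n : ℕ | t < ENNReal.ofReal ‖a n‖}.encard ≤ k}

/-- The Lorentz norm `‖a‖_{2,s} = (∑_{n ≥ 1} (a*_n)^s n^{s/2-1})^{1/s}`, in `[0, ∞]`. -/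
def lorentz {𝕜 : Type*} [RCLike 𝕜] (s : ℝ) (a : ℕ → 𝕜) : ℝ≥0∞ :=
  (∑' k : ℕ, rearr a k ^ s * ((k : ℝ≥0∞) + 1) ^ (s / 2 - 1)) ^ (1 / s)

/-- The embedding of `ℓ_{2,q}` in `E` induced by `x`:
`‖∑ a_n x_n‖ ≤ C ‖a‖_{2,q}` for all finitely supported `a`, for some `C < ∞`. -/
def LorentzEmbeds (𝕜 : Type*) [RCLike 𝕜] {E : Type*} [NormedAddCommGroup E] [NormedSpace 𝕜 E]
    (q : ℝ) (x : ℕ → E) : Prop :=
  ∃ C : ℝ≥0∞, C ≠ ∞ ∧ ∀ a : ℕ →₀ 𝕜,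
    ENNReal.ofReal ‖a.sum fun n c => c • x n‖ ≤ C * lorentz q (a : ℕ → 𝕜)

/-- The embedding of `E` in `ℓ_{2,r}` induced by the basis with functionals `xs`:
`‖(xs_n(f))_n‖_{2,r} ≤ C ‖f‖` for all `f ∈ E`, for some `C < ∞`. -/
def EmbedsInLorentz {𝕜 : Type*} [RCLike 𝕜] {E : Type*} [NormedAddCommGroup E] [NormedSpace 𝕜 E]
    (r : ℝ) (xs : ℕ → (E →L[𝕜] 𝕜)) : Prop :=
  ∃ C : ℝ≥0∞, C ≠ ∞ ∧ ∀ f : E, lorentz r (fun n => xs n f) ≤ C * ENNReal.ofReal ‖f‖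

end

end Pool.Agent.Helper65.Lorentz
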