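import Pool.Agent.Helper65.LorentzDefs
import Pool.Agent.Helper65.LorentzBlocks

open scoped ENNReal

namespace Pool.Agent.Helper65.Lorentz

noncomputable section

variable (𝕜 : Type*) [RCLike 𝕜] {E : Type*} [NormedAddCommGroup E] [InnerProductSpace 𝕜 E]

/-- the block vector -/
def uvec (e : ℕ → E) (i : ℕ) : E := ∑ n ∈ S i, (w n : 𝕜) • e n

/-- rank-one perturbation of the orthonormal system inside each block -/
def pert (e : ℕ → E) (γ : ℕ → ℝ) (n : ℕ) : E :=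
  e n + ((γ (blk n) * w n : ℝ) : 𝕜) • uvec 𝕜 e (blk n)

variable {𝕜}

lemma inner_e_u {e : ℕ → E} (he : Orthonormal 𝕜 e) (m i : ℕ) :
    inner 𝕜 (e m) (uvec 𝕜 e i) = if blk m = i then (w m : 𝕜) else 0 := by
  unfold uvec
  rw [inner_sum]
  simp only [inner_smul_right, orthonormal_iff_ite.1 he, mul_ite, mul_one, mul_zero]
  rw [Finset.sum_ite_eq]
  simp only [mem_S]

lemma inner_u_e {e : ℕ → E} (he : Orthonormal 𝕜 e) (m i : ℕ) :
    inner 𝕜 (uvec 𝕜 e i) (e m) = if blk m = i then (w m : 𝕜) else 0 := by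
  rw [← inner_conj_symm, inner_e_u he]
  split_ifs <;> simp

lemma inner_u_u {e : ℕ → E} (he : Orthonormal 𝕜 e) (i j : ℕ) :
    inner 𝕜 (uvec 𝕜 e i) (uvec 𝕜 e j) = if i = j then (h i : 𝕜) else 0 := by
  conv_lhs => rw [uvec, sum_inner]
  simp only [inner_smul_left, inner_e_u he, RCLike.conj_ofReal]
  split_ifs with hij
  · subst hij
    unfold h
    push_cast
    apply Finset.sum_congr rfl
    intro n hn
    rw [if_pos (mem_S.1 hn)]
    ring
  · apply Finset.sum_eq_zero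
    intro n hn
    rw [if_neg, mul_zero]
    rw [mem_S.1 hn]
    exact hij

lemma norm_u_sq {e : ℕ → E} (he : Orthonormal 𝕜 e) (i : ℕ) : ‖uvec 𝕜 e i‖ ^ 2 = h i := by
  have h1 := inner_self_eq_norm_sq (𝕜 := 𝕜) (uvec 𝕜 e i)
  rw [inner_u_u he, if_pos rfl] at h1
  rw [← h1]
  simp

lemma norm_u {e : ℕ → E} (he : Orthonormal 𝕜 e) (i : ℕ) : ‖uvec 𝕜 e i‖ = √(h i) := by
  rw [← norm_u_sq he i, Real.sqrt_sq (norm_nonneg _)]

/-- Pythagoras for an orthogonal family given by inner products. -/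
lemma norm_sum_sq_of_orth {ι : Type*} [DecidableEq ι] (v : ι → E)
    (hv : ∀ i j, i ≠ j → inner 𝕜 (v i) (v j) = 0) (s : Finset ι) :
    ‖∑ i ∈ s, v i‖ ^ 2 = ∑ i ∈ s, ‖v i‖ ^ 2 := by
  induction s using Finset.induction_on with
  | empty => simp
  | insert a s ha ih =>
    rw [Finset.sum_insert ha, Finset.sum_insert ha, ← ih]
    have h0 : inner 𝕜 (v a) (∑ i ∈ s, v i) = 0 := by
      rw [inner_sum]
      apply Finset.sum_eq_zero
      intro i hi
      apply hv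
      rintro rfl
      exact ha hi
    have := norm_add_sq (𝕜 := 𝕜) (v a) (∑ i ∈ s, v i)
    rw [this, h0]
    simp

/-- the fundamental estimate -/
lemma norm_sum_pert_le {e : ℕ → E} (he : Orthonormal 𝕜 e) {γ : ℕ → ℝ}
    (hγ : ∀ i, |γ i| * √(h i) ≤ 1) (A : Finset ℕ) (ε : ℕ → 𝕜) (hε : ∀ n, ‖ε n‖ = 1) :
    ‖∑ n ∈ A, ε n • pert 𝕜 e γ n‖ ≤ 3 * √(A.card : ℝ) := by
  classical
  -- first part
  have h1 : ‖∑ n ∈ A, ε n • e n‖ ^ 2 = A.card := by
    rw [norm_sum_sq_of_orth (𝕜 := 𝕜)]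
    · rw [Finset.cast_card]
      apply Finset.sum_congr rfl
      intro n _
      rw [norm_smul, hε, he.1 n]
      norm_num
    · intro i j hij
      rw [inner_smul_left, inner_smul_right, orthonormal_iff_ite.1 he, if_neg hij]
      simp
  -- second part
  set c : ℕ → 𝕜 := fun i => ∑ n ∈ A.filter (fun n => blk n = i), ε n * ((γ i * w n : ℝ) : 𝕜) with hc
  have h2 : ∑ n ∈ A, ε n • (((γ (blk n) * w n : ℝ) : 𝕜) • uvec 𝕜 e (blk n)) =
      ∑ i ∈ A.image blk, c i • uvec 𝕜 e i := by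
    rw [← Finset.sum_fiberwise_of_maps_to (g := blk) (t := A.image blk)
      (fun n hn => Finset.mem_image_of_mem _ hn)]
    apply Finset.sum_congr rfl
    intro i _
    rw [hc]
    simp only
    rw [Finset.sum_smul]
    apply Finset.sum_congr rfl
    intro n hn
    rw [(Finset.mem_filter.1 hn).2, smul_smul]
  have h3 : ∀ i, ‖c i • uvec 𝕜 e i‖ ^ 2 ≤ 4 * ((A.filter (fun n => blk n = i)).card : ℝ) := by
    intro i
    set B := A.filter (fun n => blk n = i) with hB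
    have hBS : B ⊆ S i := by
      intro n hn
      exact mem_S.2 (Finset.mem_filter.1 hn).2
    have h4 : ‖c i‖ ≤ |γ i| * (2 * √(B.card : ℝ)) := by
      calc ‖c i‖ ≤ ∑ n ∈ B, ‖ε n * ((γ i * w n : ℝ) : 𝕜)‖ := norm_sum_le _ _
        _ = ∑ n ∈ B, |γ i| * w n := by
          apply Finset.sum_congr rfl
          intro n _
          rw [norm_mul, hε, one_mul, RCLike.norm_ofReal, abs_mul, abs_of_pos (w_pos n)]
        _ = |γ i| * ∑ n ∈ B, w n := by rw [Finset.mul_sum]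
        _ ≤ |γ i| * (2 * √(B.card : ℝ)) :=
          mul_le_mul_of_nonneg_left (sum_w_le i B hBS) (abs_nonneg _)
    have h5 : ‖c i • uvec 𝕜 e i‖ ≤ 2 * √(B.card : ℝ) := by
      rw [norm_smul, norm_u he]
      calc ‖c i‖ * √(h i) ≤ |γ i| * (2 * √(B.card : ℝ)) * √(h i) :=
            mul_le_mul_of_nonneg_right h4 (Real.sqrt_nonneg _)
        _ = (|γ i| * √(h i)) * (2 * √(B.card : ℝ)) := by ring
        _ ≤ 1 * (2 * √(B.card : ℝ)) :=
            mul_le_mul_of_nonneg_right (hγ i) (by positivity)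
        _ = _ := one_mul _
    calc ‖c i • uvec 𝕜 e i‖ ^ 2 ≤ (2 * √(B.card : ℝ)) ^ 2 :=
          pow_le_pow_left₀ (norm_nonneg _) h5 2
      _ = 4 * (B.card : ℝ) := by
          rw [mul_pow, Real.sq_sqrt (by positivity)]; norm_num
  have h6 : ‖∑ i ∈ A.image blk, c i • uvec 𝕜 e i‖ ^ 2 ≤ 4 * (A.card : ℝ) := by
    rw [norm_sum_sq_of_orth (𝕜 := 𝕜)]
    · calc ∑ i ∈ A.image blk, ‖c i • uvec 𝕜 e i‖ ^ 2
          ≤ ∑ i ∈ A.image blk, 4 * ((A.filter (fun n => blk n = i)).card : ℝ) :=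
            Finset.sum_le_sum (fun i _ => h3 i)
        _ = 4 * (A.card : ℝ) := by
            rw [← Finset.mul_sum]
            congr 1
            rw [Finset.card_eq_sum_card_image blk A]
            push_cast
            rfl
    · intro i j hij
      rw [inner_smul_left, inner_smul_right, inner_u_u he, if_neg hij]
      simp
  have h7 : ∑ n ∈ A, ε n • pert 𝕜 e γ n = ∑ n ∈ A, ε n • e n +
      ∑ i ∈ A.image blk, c i • uvec 𝕜 e i := by
    rw [← h2, ← Finset.sum_add_distrib]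
    apply Finset.sum_congr rfl
    intro n _
    rw [pert, smul_add]
  have h8 : ‖∑ n ∈ A, ε n • e n‖ = √(A.card : ℝ) := by
    rw [← h1, Real.sqrt_sq (norm_nonneg _)]
  have h9 : ‖∑ i ∈ A.image blk, c i • uvec 𝕜 e i‖ ≤ 2 * √(A.card : ℝ) := by
    apply le_of_sq_le_sq _ (by positivity)
    rw [mul_pow, Real.sq_sqrt (by positivity)]
    norm_num
    exact h6
  rw [h7]
  calc _ ≤ ‖∑ n ∈ A, ε n • e n‖ + ‖∑ i ∈ A.image blk, c i • uvec 𝕜 e i‖ := norm_add_le _ _
    _ ≤ √(A.card : ℝ) + 2 * √(A.card : ℝ) := add_le_add h8.le h9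
    _ = _ := by ring

/-- sum of the perturbed vectors against the weight -/
lemma sum_w_pert {e : ℕ → E} (γ : ℕ → ℝ) (i : ℕ) :
    ∑ n ∈ S i, (w n : 𝕜) • pert 𝕜 e γ n = ((1 + γ i * h i : ℝ) : 𝕜) • uvec 𝕜 e i := by
  have h1 : ∀ n ∈ S i, (w n : 𝕜) • pert 𝕜 e γ n =
      (w n : 𝕜) • e n + ((γ i * w n ^ 2 : ℝ) : 𝕜) • uvec 𝕜 e i := by
    intro n hn
    rw [pert, mem_S.1 hn, smul_add, smul_smul]
    congr 2
    push_cast
    ring
  rw [Finset.sum_congr rfl h1, Finset.sum_add_distrib, ← Finset.sum_smul]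
  have h2 : ∑ n ∈ S i, ((γ i * w n ^ 2 : ℝ) : 𝕜) = ((γ i * h i : ℝ) : 𝕜) := by
    rw [← RCLike.ofReal_sum, ← Finset.mul_sum]
    rfl
  rw [h2, ← uvec]
  push_cast
  rw [add_smul, one_smul]

lemma e_mem_span {e : ℕ → E} {γ δ : ℕ → ℝ} (hrel : ∀ i, γ i - δ i = γ i * δ i * h i) (m : ℕ) :
    e m ∈ Submodule.span 𝕜 (Set.range (pert 𝕜 e γ)) := by
  have h1 : e m = pert 𝕜 e γ m -
      ((δ (blk m) * w m : ℝ) : 𝕜) • ∑ n ∈ S (blk m), (w n : 𝕜) • pert 𝕜 e γ n := by
    rw [sum_w_pert, pert, smul_smul, add_sub_assoc, ← sub_smul]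
    have h2 : ((γ (blk m) * w m : ℝ) : 𝕜) - ((δ (blk m) * w m : ℝ) : 𝕜) *
        ((1 + γ (blk m) * h (blk m) : ℝ) : 𝕜) = 0 := by
      rw [← RCLike.ofReal_mul, ← RCLike.ofReal_sub]
      have h3 : γ (blk m) * w m - δ (blk m) * w m * (1 + γ (blk m) * h (blk m)) = 0 := by
        have := hrel (blk m)
        linear_combination (w m) * this
      rw [h3]
      simp
    rw [h2, zero_smul, add_zero]
  rw [h1]
  apply Submodule.sub_mem
  · exact Submodule.subset_span ⟨m, rfl⟩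
  · apply Submodule.smul_mem
    apply Submodule.sum_mem
    intro n _
    apply Submodule.smul_mem
    exact Submodule.subset_span ⟨n, rfl⟩

lemma inner_pert {e : ℕ → E} (he : Orthonormal 𝕜 e) {γ δ : ℕ → ℝ}
    (hrel : ∀ i, γ i - δ i = γ i * δ i * h i) (n k : ℕ) :
    inner 𝕜 (pert 𝕜 e (fun i => -δ i) n) (pert 𝕜 e γ k) = if n = k then 1 else 0 := by
  unfold pert
  rw [inner_add_left, inner_add_right, inner_add_right, inner_smul_left, inner_smul_left,
    inner_smul_right, inner_smul_right, inner_e_u he, inner_u_e he, inner_u_u he,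
    orthonormal_iff_ite.1 he, RCLike.conj_ofReal]
  by_cases hb : blk n = blk k
  · rw [if_pos hb, if_pos hb.symm, if_pos hb, ← hb]
    have h1 : ((γ (blk n) * w k : ℝ) : 𝕜) * (w n : 𝕜) +
        (((-δ (blk n) * w n : ℝ) : 𝕜) * (w k : 𝕜) + ((-δ (blk n) * w n : ℝ) : 𝕜) *
          (((γ (blk n) * w k : ℝ) : 𝕜) * (h (blk n) : 𝕜))) = 0 := by
      rw [← RCLike.ofReal_mul, ← RCLike.ofReal_mul, ← RCLike.ofReal_mul, ← RCLike.ofReal_mul,
        ← RCLike.ofReal_add, ← RCLike.ofReal_add]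
      have h2 : γ (blk n) * w k * w n + (-δ (blk n) * w n * w k +
          -δ (blk n) * w n * (γ (blk n) * w k * h (blk n))) = 0 := by
        have := hrel (blk n)
        linear_combination (w n * w k) * this
      rw [h2]
      simp
    rw [add_assoc, h1, add_zero]
  · have hnk : n ≠ k := fun hh => hb (by rw [hh])
    have hb' : blk k ≠ blk n := fun hh => hb hh.symm
    simp [hb, hb', hnk]

end

end Pool.Agent.Helper65.Lorentz
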