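import Pool.Agent.Helper65.LorentzDefs
import Pool.Agent.Helper65.LorentzBlocks

open scoped ENNReal

namespace Pool.Agent.Helper65.Lorentz

noncomputable section

variable {𝕜 : Type*} [RCLike 𝕜]

lemma card_S (i : ℕ) : (S i).card = 2 ^ i := by
  unfold S
  rw [Nat.card_Ico]
  have h1 := Nat.one_le_two_pow (n := i)
  have h2 := pow_succ 2 i
  omega

lemma card_filter_pos_le (i k : ℕ) : ((S i).filter (fun n => pos n ≤ k)).card ≤ k := by
  have hinj : Set.InjOn pos (((S i).filter (fun n => pos n ≤ k) : Finset ℕ) : Set ℕ) :=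
    (pos_injOn i).mono (by exact_mod_cast Finset.filter_subset _ _)
  rw [← Finset.card_image_of_injOn hinj]
  have hsub : ((S i).filter (fun n => pos n ≤ k)).image pos ⊆ Finset.Icc 1 k := by
    intro p hp
    obtain ⟨n, hn, rfl⟩ := Finset.mem_image.1 hp
    rw [Finset.mem_Icc]
    exact ⟨pos_pos n, (Finset.mem_filter.1 hn).2⟩
  have := Finset.card_le_card hsub
  simpa using this

lemma le_card_filter_pos (i k : ℕ) (hk : k < 2 ^ i) :
    k + 1 ≤ ((S i).filter (fun n => pos n ≤ k + 1)).card := by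
  have hsub : (Finset.range (k + 1)).image (fun j => j + 2 ^ i - 1) ⊆
      (S i).filter (fun n => pos n ≤ k + 1) := by
    intro n hn
    obtain ⟨j, hj, rfl⟩ := Finset.mem_image.1 hn
    rw [Finset.mem_range] at hj
    have h1 := Nat.one_le_two_pow (n := i)
    have h2 := pow_succ 2 i
    have h3 : j + 2 ^ i - 1 ∈ S i := by
      unfold S
      rw [Finset.mem_Ico]
      omega
    rw [Finset.mem_filter]
    refine ⟨h3, ?_⟩
    have h4 := mem_S.1 h3
    have h5 := pos_add (j + 2 ^ i - 1)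
    rw [h4] at h5
    omega
  have h1 := Finset.card_le_card hsub
  rw [Finset.card_image_of_injOn, Finset.card_range] at h1
  · exact h1
  · intro a _ b _ hab
    have h1 := Nat.one_le_two_pow (n := i)
    simp only at hab
    omega

lemma rearr_le (i : ℕ) (a : ℕ → 𝕜) (ha : ∀ n, ‖a n‖ ≤ if blk n = i then w n else 0) (k : ℕ) :
    rearr a k ≤ ENNReal.ofReal (1 / √((k : ℝ) + 1)) := by
  unfold rearr
  apply sInf_le
  rw [Set.mem_ofPred_eq]
  have hsub : {n : ℕ | ENNReal.ofReal (1 / √((k : ℝ) + 1)) < ENNReal.ofReal ‖a n‖} ⊆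
      (((S i).filter (fun n => pos n ≤ k) : Finset ℕ) : Set ℕ) := by
    intro n hn
    rw [Set.mem_ofPred_eq] at hn
    have h1 := (ENNReal.ofReal_lt_ofReal_iff_of_nonneg (by positivity)).1 hn
    have h2 := lt_of_lt_of_le h1 (ha n)
    rw [Finset.mem_coe, Finset.mem_filter, mem_S]
    split_ifs at h2 with hb
    · refine ⟨hb, ?_⟩
      unfold w at h2
      by_contra hcon
      push Not at hcon
      have h3 : (k : ℝ) + 1 ≤ (pos n : ℝ) := by exact_mod_cast hcon
      have h4 : 1 / √(pos n : ℝ) ≤ 1 / √((k : ℝ) + 1) := by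
        apply one_div_le_one_div_of_le (by positivity) (Real.sqrt_le_sqrt h3)
      linarith
    · exfalso
      have : 0 ≤ 1 / √((k : ℝ) + 1) := by positivity
      linarith
  calc _ ≤ _ := Set.encard_le_encard hsub
    _ = (((S i).filter (fun n => pos n ≤ k)).card : ℕ∞) := Set.encard_coe_eq_coe_finsetCard _
    _ ≤ (k : ℕ∞) := by exact_mod_cast card_filter_pos_le i k

lemma rearr_eq_zero (i : ℕ) (a : ℕ → 𝕜) (ha : ∀ n, ‖a n‖ ≤ if blk n = i then w n else 0) (k : ℕ)
    (hk : 2 ^ i ≤ k) : rearr a k = 0 := by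
  unfold rearr
  apply le_antisymm _ bot_le
  apply sInf_le
  rw [Set.mem_ofPred_eq]
  have hsub : {n : ℕ | 0 < ENNReal.ofReal ‖a n‖} ⊆ ((S i : Finset ℕ) : Set ℕ) := by
    intro n hn
    rw [Set.mem_ofPred_eq, ENNReal.ofReal_pos] at hn
    have h2 := lt_of_lt_of_le hn (ha n)
    rw [Finset.mem_coe, mem_S]
    by_contra hcon
    rw [if_neg hcon] at h2
    exact lt_irrefl _ h2
  calc _ ≤ _ := Set.encard_le_encard hsub
    _ = ((S i).card : ℕ∞) := Set.encard_coe_eq_coe_finsetCard _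
    _ ≤ (k : ℕ∞) := by rw [card_S]; exact_mod_cast hk

lemma le_rearr (i : ℕ) (a : ℕ → 𝕜) {t : ℝ} (ht : 0 ≤ t) (ha : ∀ n ∈ S i, t * w n ≤ ‖a n‖)
    (k : ℕ) (hk : k < 2 ^ i) : ENNReal.ofReal (t * (1 / √((k : ℝ) + 1))) ≤ rearr a k := by
  unfold rearr
  apply le_sInf
  intro s hs
  rw [Set.mem_ofPred_eq] at hs
  by_contra hcon
  push Not at hcon
  have hsub : (((S i).filter (fun n => pos n ≤ k + 1) : Finset ℕ) : Set ℕ) ⊆
      {n : ℕ | s < ENNReal.ofReal ‖a n‖} := by
    intro n hn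
    rw [Finset.mem_coe, Finset.mem_filter] at hn
    rw [Set.mem_ofPred_eq]
    refine lt_of_lt_of_le hcon (ENNReal.ofReal_le_ofReal ?_)
    refine le_trans ?_ (ha n hn.1)
    apply mul_le_mul_of_nonneg_left _ ht
    unfold w
    have h0 : (0 : ℝ) < pos n := by exact_mod_cast pos_pos n
    apply one_div_le_one_div_of_le (by positivity)
    apply Real.sqrt_le_sqrt
    exact_mod_cast hn.2
  have h1 := Set.encard_le_encard hsub
  rw [Set.encard_coe_eq_coe_finsetCard] at h1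
  have h2 := le_card_filter_pos i k hk
  have h3 : (((S i).filter (fun n => pos n ≤ k + 1)).card : ℕ∞) ≤ (k : ℕ∞) := le_trans h1 hs
  have h4 : ((S i).filter (fun n => pos n ≤ k + 1)).card ≤ k := by exact_mod_cast h3
  omega

lemma term_eq (s t : ℝ) (ht : 0 < t) (k : ℕ) :
    ENNReal.ofReal (t * (1 / √((k : ℝ) + 1))) ^ s * ((k : ℝ≥0∞) + 1) ^ (s / 2 - 1) =
      ENNReal.ofReal (t ^ s * (1 / ((k : ℝ) + 1))) := by
  have hX : (0 : ℝ) < (k : ℝ) + 1 := by positivity
  have h1 : (k : ℝ≥0∞) + 1 = ENNReal.ofReal ((k : ℝ) + 1) := by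
    rw [ENNReal.ofReal_add (by positivity) zero_le_one]
    simp
  rw [h1, ENNReal.ofReal_rpow_of_pos (by positivity), ENNReal.ofReal_rpow_of_pos hX,
    ← ENNReal.ofReal_mul (by positivity)]
  congr 1
  rw [Real.mul_rpow ht.le (by positivity), mul_assoc]
  congr 1
  rw [one_div, Real.sqrt_eq_rpow, ← Real.rpow_neg hX.le, ← Real.rpow_mul hX.le,
    ← Real.rpow_add hX]
  have h2 : -(1 / 2) * s + (s / 2 - 1) = -1 := by ring
  rw [h2, Real.rpow_neg_one, one_div]

lemma lorentz_le (i : ℕ) (a : ℕ → 𝕜) (ha : ∀ n, ‖a n‖ ≤ if blk n = i then w n else 0)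
    {q : ℝ} (hq : 0 < q) : lorentz q a ≤ ENNReal.ofReal (h i ^ (1 / q)) := by
  unfold lorentz
  rw [← ENNReal.ofReal_rpow_of_pos (h_pos i)]
  apply ENNReal.rpow_le_rpow _ (by positivity)
  rw [tsum_eq_sum (s := Finset.range (2 ^ i))]
  · rw [h_eq, ENNReal.ofReal_sum_of_nonneg (fun k _ => by positivity)]
    apply Finset.sum_le_sum
    intro k _
    have h1 := term_eq q 1 one_pos k
    rw [Real.one_rpow, one_mul, one_mul] at h1
    rw [← h1]
    gcongr
    exact rearr_le i a ha k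
  · intro k hk
    rw [Finset.mem_range, not_lt] at hk
    rw [rearr_eq_zero i a ha k hk, ENNReal.zero_rpow_of_pos hq, zero_mul]

lemma le_lorentz (i : ℕ) (a : ℕ → 𝕜) {t : ℝ} (ht : 0 < t) (ha : ∀ n ∈ S i, t * w n ≤ ‖a n‖)
    {r : ℝ} (hr : 0 < r) : ENNReal.ofReal (t * h i ^ (1 / r)) ≤ lorentz r a := by
  unfold lorentz
  have h0 : t * h i ^ (1 / r) = (t ^ r * h i) ^ (1 / r) := by
    rw [Real.mul_rpow (by positivity) (h_pos i).le, ← Real.rpow_mul ht.le]
    rw [mul_one_div_cancel hr.ne', Real.rpow_one]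
  have hth : 0 < t ^ r * h i := mul_pos (Real.rpow_pos_of_pos ht _) (h_pos i)
  rw [h0, ← ENNReal.ofReal_rpow_of_pos hth]
  apply ENNReal.rpow_le_rpow _ (by positivity)
  calc ENNReal.ofReal (t ^ r * h i)
      = ∑ k ∈ Finset.range (2 ^ i), ENNReal.ofReal (t ^ r * (1 / ((k : ℝ) + 1))) := by
        rw [← ENNReal.ofReal_sum_of_nonneg (fun k _ => by positivity), ← Finset.mul_sum, h_eq]
    _ = ∑ k ∈ Finset.range (2 ^ i),
          ENNReal.ofReal (t * (1 / √((k : ℝ) + 1))) ^ r * ((k : ℝ≥0∞) + 1) ^ (r / 2 - 1) := by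
        apply Finset.sum_congr rfl
        intro k _
        rw [term_eq r t ht k]
    _ ≤ ∑ k ∈ Finset.range (2 ^ i), rearr a k ^ r * ((k : ℝ≥0∞) + 1) ^ (r / 2 - 1) := by
        apply Finset.sum_le_sum
        intro k hk
        rw [Finset.mem_range] at hk
        gcongr
        exact le_rearr i a ht.le ha k hk
    _ ≤ _ := ENNReal.sum_le_tsum _

end

end Pool.Agent.Helper65.Lorentz
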