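import Pool.Agent.Helper65.LorentzHilbert
import Pool.Agent.Helper65.LorentzRearr

open scoped ENNReal

namespace Pool.Agent.Helper65.Lorentz

noncomputable section

/-- the coefficients of the perturbation -/
def al (i : ℕ) : ℝ := if Even i then 1 / √(h i) else -(1 / (h i + √(h i)))
/-- the coefficients of the dual perturbation -/
def be (i : ℕ) : ℝ := if Even i then 1 / (h i + √(h i)) else -(1 / √(h i))

lemma sqrt_h_pos (i : ℕ) : 0 < √(h i) := Real.sqrt_pos.2 (h_pos i)

lemma sqrt_h_sq (i : ℕ) : √(h i) ^ 2 = h i := Real.sq_sqrt (h_pos i).le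

lemma al_be (i : ℕ) : al i - be i = al i * be i * h i := by
  have h1 := sqrt_h_pos i
  have h2 := sqrt_h_sq i
  unfold al be
  set s := √(h i) with hs
  rw [← h2]
  split_ifs
  · field_simp
    ring
  · field_simp
    ring

lemma al_le (i : ℕ) : |al i| * √(h i) ≤ 1 := by
  have h1 := sqrt_h_pos i
  have h2 := h_pos i
  unfold al
  split_ifs
  · rw [abs_of_pos (by positivity), one_div, inv_mul_cancel₀ h1.ne']
  · rw [abs_neg, abs_of_pos (by positivity), one_div_mul_eq_div, div_le_one (by positivity)]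
    linarith

lemma be_le (i : ℕ) : |be i| * √(h i) ≤ 1 := by
  have h1 := sqrt_h_pos i
  have h2 := h_pos i
  unfold be
  split_ifs
  · rw [abs_of_pos (by positivity), one_div_mul_eq_div, div_le_one (by positivity)]
    linarith
  · rw [abs_neg, abs_of_pos (by positivity), one_div, inv_mul_cancel₀ h1.ne']

variable {𝕜 : Type*} [RCLike 𝕜] {E : Type*} [NormedAddCommGroup E] [InnerProductSpace 𝕜 E]

/-- the biorthogonal functionals -/
def dualPert (𝕜 : Type*) [RCLike 𝕜] {E : Type*} [NormedAddCommGroup E] [InnerProductSpace 𝕜 E]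
    (e : ℕ → E) (n : ℕ) : E →L[𝕜] 𝕜 :=
  innerSL 𝕜 (pert 𝕜 e (fun i => -be i) n)

lemma dualPert_apply (e : ℕ → E) (n : ℕ) (f : E) :
    dualPert 𝕜 e n f = inner 𝕜 (pert 𝕜 e (fun i => -be i) n) f := rfl

lemma be_le' (i : ℕ) : |(fun i => -be i) i| * √(h i) ≤ 1 := by
  simp only [abs_neg]
  exact be_le i

lemma norm_pert_le {e : ℕ → E} (he : Orthonormal 𝕜 e) {γ : ℕ → ℝ}
    (hγ : ∀ i, |γ i| * √(h i) ≤ 1) (n : ℕ) : ‖pert 𝕜 e γ n‖ ≤ 3 := by
  have := norm_sum_pert_le he hγ {n} (fun _ => 1) (fun _ => by simp)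
  simpa using this

lemma isBasis_pert (b : HilbertBasis ℕ 𝕜 E) :
    IsBasis (pert 𝕜 b al) (dualPert 𝕜 (b : ℕ → E)) where
  biorthogonal n k := by
    rw [dualPert_apply]
    exact inner_pert b.orthonormal al_be n k
  dense_span := by
    have h1 : Submodule.span 𝕜 (Set.range b) ≤ Submodule.span 𝕜 (Set.range (pert 𝕜 b al)) := by
      rw [Submodule.span_le]
      rintro _ ⟨m, rfl⟩
      exact e_mem_span al_be m
    have h2 : Dense ((Submodule.span 𝕜 (Set.range b) : Submodule 𝕜 E) : Set E) := by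
      rw [Submodule.dense_iff_topologicalClosure_eq_top]
      exact b.dense_span
    exact h2.mono h1
  separates f hf := by
    have h1 : ∀ m, inner 𝕜 (b m) f = 0 := by
      intro m
      have h2 : b m ∈ Submodule.span 𝕜 (Set.range (pert 𝕜 b (fun i => -be i))) := by
        apply e_mem_span (δ := fun i => -al i)
        intro i
        have := al_be i
        linear_combination this
      have h3 : ∀ v ∈ Submodule.span 𝕜 (Set.range (pert 𝕜 b (fun i => -be i))),
          inner 𝕜 v f = 0 := by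
        intro v hv
        induction hv using Submodule.span_induction with
        | mem v hv =>
          obtain ⟨n, rfl⟩ := hv
          exact hf n
        | zero => simp
        | add x y _ _ hx hy => rw [inner_add_left, hx, hy, add_zero]
        | smul c x _ hx => rw [inner_smul_left, hx, mul_zero]
      exact h3 _ h2
    have h4 : b.repr f = 0 := by
      ext m
      rw [b.repr_apply_apply, h1 m]
      simp
    simpa using h4
  bounded := by
    refine ⟨3, fun n => ⟨norm_pert_le b.orthonormal al_le n, ?_⟩⟩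
    rw [dualPert, innerSL_apply_norm]
    exact norm_pert_le b.orthonormal be_le' n

lemma fundamental_pert_le {e : ℕ → E} (he : Orthonormal 𝕜 e) {γ : ℕ → ℝ}
    (hγ : ∀ i, |γ i| * √(h i) ≤ 1) (m : ℕ) :
    fundamental 𝕜 (pert 𝕜 e γ) m ≤ ENNReal.ofReal (3 * √(m : ℝ)) := by
  unfold fundamental
  refine iSup_le fun A => iSup_le fun hA => iSup_le fun ε => iSup_le fun hε => ?_
  apply ENNReal.ofReal_le_ofReal
  refine (norm_sum_pert_le he hγ A ε hε).trans ?_
  have : √(A.card : ℝ) ≤ √(m : ℝ) := Real.sqrt_le_sqrt (by exact_mod_cast hA)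
  linarith

lemma fundamental_dual_le {e : ℕ → E} (he : Orthonormal 𝕜 e) (m : ℕ) :
    fundamental 𝕜 (dualPert 𝕜 e) m ≤ ENNReal.ofReal (3 * √(m : ℝ)) := by
  unfold fundamental
  refine iSup_le fun A => iSup_le fun hA => iSup_le fun ε => iSup_le fun hε => ?_
  apply ENNReal.ofReal_le_ofReal
  have h1 : ∑ n ∈ A, ε n • dualPert 𝕜 e n =
      innerSL 𝕜 (∑ n ∈ A, (starRingEnd 𝕜 (ε n)) • pert 𝕜 e (fun i => -be i) n) := by
    rw [map_sum]
    apply Finset.sum_congr rfl
    intro n _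
    rw [map_smulₛₗ, RCLike.conj_conj]
    rfl
  rw [h1, innerSL_apply_norm]
  refine (norm_sum_pert_le he be_le' A _ (fun n => ?_)).trans ?_
  · rw [RCLike.norm_conj, hε]
  · have : √(A.card : ℝ) ≤ √(m : ℝ) := Real.sqrt_le_sqrt (by exact_mod_cast hA)
    linarith

lemma isBidemocratic_pert {e : ℕ → E} (he : Orthonormal 𝕜 e) :
    IsBidemocratic (pert 𝕜 e al) (dualPert 𝕜 e) := by
  refine ⟨9, by norm_num, fun m _ => ?_⟩
  calc _ ≤ ENNReal.ofReal (3 * √(m : ℝ)) * ENNReal.ofReal (3 * √(m : ℝ)) :=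
        mul_le_mul' (fundamental_pert_le he al_le m) (fundamental_dual_le he m)
    _ = 9 * m := by
      rw [← ENNReal.ofReal_mul (by positivity)]
      have : 3 * √(m : ℝ) * (3 * √(m : ℝ)) = 9 * (m : ℝ) := by
        have := Real.mul_self_sqrt (Nat.cast_nonneg (α := ℝ) m)
        linear_combination 9 * this
      rw [this, ENNReal.ofReal_mul (by norm_num)]
      simp

/-- a power of `h` with positive exponent is unbounded along even and odd indices -/
lemma exists_large {s : ℝ} (hs : 0 < s) (C : ℝ) (j : ℕ) :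
    ∃ i, C < h (2 * i + j) ^ s := by
  have h1 : Filter.Tendsto (fun i : ℕ => h (2 * i + j) ^ s) Filter.atTop Filter.atTop := by
    refine (tendsto_rpow_atTop hs).comp (h_tendsto.comp ?_)
    apply Filter.tendsto_atTop_atTop.2
    intro N
    exact ⟨N, fun a ha => by omega⟩
  exact (h1.eventually_gt_atTop C).exists

/-- the coefficients of the weight on the `i`-th block -/
def wcoef (𝕜 : Type*) [RCLike 𝕜] (i : ℕ) : ℕ →₀ 𝕜 :=
  Finsupp.onFinset (S i) (fun n => if blk n = i then (w n : 𝕜) else 0) (by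
    intro n hn
    rw [mem_S]
    by_contra hcon
    exact hn (if_neg hcon))

lemma wcoef_sum (e : ℕ → E) (i : ℕ) (γ : ℕ → ℝ) :
    (wcoef 𝕜 i).sum (fun n c => c • pert 𝕜 e γ n) =
      ((1 + γ i * h i : ℝ) : 𝕜) • uvec 𝕜 e i := by
  rw [← sum_w_pert, wcoef, Finsupp.onFinset_sum _ (fun n => by simp)]
  apply Finset.sum_congr rfl
  intro n hn
  rw [if_pos (mem_S.1 hn)]

lemma not_lorentzEmbeds {e : ℕ → E} (he : Orthonormal 𝕜 e) {q : ℝ} (hq : 1 < q) :
    ¬ LorentzEmbeds 𝕜 q (pert 𝕜 e al) := by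
  rintro ⟨C, hC, hCb⟩
  have hs : 0 < 1 - 1 / q := by
    have : 1 / q < 1 := by rw [div_lt_one (by linarith)]; exact hq
    linarith
  obtain ⟨j, hj⟩ := exists_large hs C.toReal 0
  set i := 2 * j + 0 with hi
  have hev : Even i := by rw [hi]; exact ⟨j, by ring⟩
  have h1 := hCb (wcoef 𝕜 i)
  rw [wcoef_sum] at h1
  have h2 : h i ≤ ‖((1 + al i * h i : ℝ) : 𝕜) • uvec 𝕜 e i‖ := by
    rw [norm_smul, RCLike.norm_ofReal, norm_u he]
    have h3 := sqrt_h_pos i
    have h4 := sqrt_h_sq i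
    have h5 : al i * h i = √(h i) := by
      unfold al
      rw [if_pos hev]
      field_simp
      exact h4.symm
    rw [h5, abs_of_pos (by positivity)]
    nlinarith
  have h6 : lorentz q (wcoef 𝕜 i : ℕ → 𝕜) ≤ ENNReal.ofReal (h i ^ (1 / q)) := by
    apply lorentz_le i _ _ (by linarith)
    intro n
    rw [wcoef, Finsupp.onFinset_apply]
    split_ifs
    · rw [RCLike.norm_ofReal, abs_of_pos (w_pos n)]
    · simp
  have h7 : ENNReal.ofReal (h i) ≤ ENNReal.ofReal (C.toReal * h i ^ (1 / q)) := by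
    rw [ENNReal.ofReal_mul ENNReal.toReal_nonneg, ENNReal.ofReal_toReal hC]
    calc ENNReal.ofReal (h i) ≤ _ := ENNReal.ofReal_le_ofReal h2
      _ ≤ _ := h1
      _ ≤ _ := by gcongr
  rw [ENNReal.ofReal_le_ofReal_iff (by
    have := h_pos i
    positivity)] at h7
  have h8 : h i = h i ^ (1 - 1 / q) * h i ^ (1 / q) := by
    rw [← Real.rpow_add (h_pos i)]
    simp
  have h9 : 0 < h i ^ (1 / q) := Real.rpow_pos_of_pos (h_pos i) _
  have h10 : C.toReal * h i ^ (1 / q) < h i ^ (1 - 1 / q) * h i ^ (1 / q) :=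
    mul_lt_mul_of_pos_right hj h9
  rw [← h8] at h10
  linarith

lemma not_embedsInLorentz {e : ℕ → E} (he : Orthonormal 𝕜 e) {r : ℝ} (hr : 0 < r) :
    ¬ EmbedsInLorentz r (dualPert 𝕜 e) := by
  rintro ⟨C, hC, hCb⟩
  obtain ⟨j, hj⟩ := exists_large (s := 1 / r) (by positivity) C.toReal 1
  set i := 2 * j + 1 with hi
  have hodd : ¬ Even i := by
    rw [hi, Nat.not_even_iff_odd]
    exact ⟨j, rfl⟩
  have h1 := hCb (uvec 𝕜 e i)
  have h3 := sqrt_h_pos i
  have h4 := sqrt_h_sq i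
  have h5 : ENNReal.ofReal (√(h i) * h i ^ (1 / r)) ≤
      lorentz r (fun n => dualPert 𝕜 e n (uvec 𝕜 e i)) := by
    apply le_lorentz i _ h3 _ hr
    intro n hn
    have hb := mem_S.1 hn
    rw [dualPert_apply, pert, hb, inner_add_left, inner_smul_left, inner_e_u he, inner_u_u he,
      if_pos hb, if_pos rfl, RCLike.conj_ofReal, ← RCLike.ofReal_mul, ← RCLike.ofReal_add,
      RCLike.norm_ofReal]
    have h6 : -be i * h i = √(h i) := by
      unfold be
      rw [if_neg hodd]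
      field_simp
      exact h4.symm
    have h7 : w n + -be i * w n * h i = (1 + √(h i)) * w n := by
      rw [← h6]
      ring
    rw [h7, abs_of_pos (mul_pos (by positivity) (w_pos n))]
    nlinarith [w_pos n]
  rw [norm_u he] at h1
  have h8 : ENNReal.ofReal (√(h i) * h i ^ (1 / r)) ≤ ENNReal.ofReal (C.toReal * √(h i)) := by
    rw [ENNReal.ofReal_mul ENNReal.toReal_nonneg, ENNReal.ofReal_toReal hC]
    exact h5.trans h1
  rw [ENNReal.ofReal_le_ofReal_iff (by positivity)] at h8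
  have h9 : C.toReal * √(h i) < h i ^ (1 / r) * √(h i) := mul_lt_mul_of_pos_right hj h3
  linarith

/-- the standard Hilbert basis of `ℓ²(ℕ)` -/
def stdBasis (𝕜 : Type*) [RCLike 𝕜] : HilbertBasis ℕ 𝕜 (lp (fun _ : ℕ => 𝕜) 2) :=
  HilbertBasis.ofRepr (LinearIsometryEquiv.refl 𝕜 (lp (fun _ : ℕ => 𝕜) 2))

theorem main (𝕜 : Type*) [RCLike 𝕜] :
    ∃ (x : ℕ → lp (fun _ : ℕ => 𝕜) 2) (xs : ℕ → (lp (fun _ : ℕ => 𝕜) 2 →L[𝕜] 𝕜)),
      IsBasis x xs ∧ IsBidemocratic x xs ∧
      (∀ q : ℝ, 1 < q → ¬ LorentzEmbeds 𝕜 q x) ∧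
      (∀ r : ℝ, 0 < r → ¬ EmbedsInLorentz r xs) :=
  ⟨pert 𝕜 (stdBasis 𝕜) al, dualPert 𝕜 (stdBasis 𝕜), isBasis_pert _,
    isBidemocratic_pert (stdBasis 𝕜).orthonormal,
    fun _ hq => not_lorentzEmbeds (stdBasis 𝕜).orthonormal hq,
    fun _ hr => not_embedsInLorentz (stdBasis 𝕜).orthonormal hr⟩

end

end Pool.Agent.Helper65.Lorentz
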